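import Mathlib

/-!
# Words avoiding a scattered subword
-/

set_option autoImplicit false

namespace Pool.Agent.Y38.CC

open Finset

variable {α : Type*} [Fintype α] [DecidableEq α]

/-- The words of length `n` which do not contain `w` as a scattered subword. -/
def Av (n : ℕ) (w : List α) : Finset (Fin n → α) :=
  univ.filter fun v => ¬ w.Sublist (List.ofFn v)

theorem mem_Av {n : ℕ} {w : List α} {v : Fin n → α} :
    v ∈ Av n w ↔ ¬ w.Sublist (List.ofFn v) := by
  simp [Av]

theorem Av_nil (n : ℕ) : Av n ([] : List α) = ∅ := by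
  ext v; simp [mem_Av]

theorem card_Av_succ (n : ℕ) (x : α) (w : List α) :
    (Av (n + 1) (x :: w)).card ≤ (Fintype.card α - 1) * (Av n (x :: w)).card + (Av n w).card := by
  classical
  have h : Av (n + 1) (x :: w) ⊆
      ((univ.erase x) ×ˢ (Av n (x :: w))).image (fun p : α × (Fin n → α) => (Fin.cons p.1 p.2 : Fin (n + 1) → α)) ∪
      (Av n w).image (fun v => (Fin.cons x v : Fin (n + 1) → α)) := by
    intro v hv
    rw [mem_Av, List.ofFn_succ] at hv
    rw [mem_union, mem_image, mem_image]
    by_cases hx : v 0 = x
    · right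
      refine ⟨fun i => v i.succ, ?_, ?_⟩
      · rw [mem_Av]
        intro hs
        apply hv
        rw [hx]
        exact hs.cons_cons x
      · rw [← hx]
        exact Fin.cons_self_tail v
    · left
      refine ⟨(v 0, fun i => v i.succ), ?_, Fin.cons_self_tail v⟩
      rw [mem_product, mem_Av]
      refine ⟨by simp [hx], fun hs => hv (hs.cons _)⟩
  refine (card_le_card h).trans ((card_union_le _ _).trans (add_le_add ?_ ?_))
  · refine card_image_le.trans ?_
    rw [card_product, card_erase_of_mem (mem_univ _), card_univ]
  · exact card_image_le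

theorem card_Av_le (hα : 2 ≤ Fintype.card α) (n : ℕ) (w : List α) :
    (Av n w).card ≤ (n + 1) ^ w.length * (Fintype.card α - 1) ^ n := by
  induction n generalizing w with
  | zero =>
    have h : (Av 0 w).card ≤ 1 := by
      refine (card_le_univ _).trans ?_
      simp
    simpa using h
  | succ n ih =>
    cases w with
    | nil => simp [Av_nil]
    | cons x w =>
      refine (card_Av_succ n x w).trans ?_
      have h1 := ih (x :: w)
      have h2 := ih w
      obtain ⟨d, hd⟩ : ∃ d, Fintype.card α - 1 = d + 1 := ⟨Fintype.card α - 2, by omega⟩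
      rw [hd] at h1 h2 ⊢
      rw [List.length_cons] at h1 ⊢
      calc (d + 1) * (Av n (x :: w)).card + (Av n w).card
          ≤ (d + 1) * ((n + 1) ^ (w.length + 1) * (d + 1) ^ n) + (n + 1) ^ w.length * (d + 1) ^ n := by
            gcongr
        _ ≤ (d + 1) * ((n + 1) ^ (w.length + 1) * (d + 1) ^ n) +
            (d + 1) * ((n + 1) ^ w.length * (d + 1) ^ n) :=
            Nat.add_le_add_left (Nat.le_mul_of_pos_left _ (Nat.succ_pos d)) _
        _ = ((n + 1) ^ w.length * (n + 2)) * (d + 1) ^ (n + 1) := by ring
        _ ≤ (n + 1 + 1) ^ (w.length + 1) * (d + 1) ^ (n + 1) := by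
            gcongr
            rw [pow_succ]
            gcongr
            omega

end Pool.Agent.Y38.CC
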