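import Mathlib
import Pool.Agent.Y38.CC.Words

/-!
# Functions on words killed by all contractions with a fixed function
-/

set_option autoImplicit false

namespace Pool.Agent.Y38.CC

open Finset Function

theorem lex_extend {α : Type*} [LinearOrder α] {n m : ℕ} (B : Fin m ↪o Fin n) (v : Fin n → α)
    {w w' : Fin m → α} (h : toLex w < toLex w') :
    toLex (extend B w v) < toLex (extend B w' v) := by
  obtain ⟨i, hi, hlt⟩ := h
  refine ⟨B i, fun l hl => ?_, ?_⟩
  · change extend B w v l = extend B w' v l
    by_cases hr : ∃ j, B j = l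
    · obtain ⟨j, rfl⟩ := hr
      rw [B.injective.extend_apply, B.injective.extend_apply]
      exact hi j (B.lt_iff_lt.1 hl)
    · rw [extend_apply' _ _ _ hr, extend_apply' _ _ _ hr]
  · change extend B w v (B i) < extend B w' v (B i)
    rw [B.injective.extend_apply, B.injective.extend_apply]
    exact hlt

theorem elim_aux {α : Type*} [Fintype α] [LinearOrder α] {M : Type*} [AddCommGroup M] [Module ℝ M]
    [FiniteDimensional ℝ M] {n m : ℕ} (g : (Fin m → α) → ℝ) (w₀ : Fin m → α) (hw0 : g w₀ ≠ 0)
    (hmax : ∀ w, g w ≠ 0 → toLex w ≤ toLex w₀) (V : Submodule ℝ ((Fin n → α) → M))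
    (hV : ∀ φ ∈ V, ∀ (B : Fin m ↪o Fin n) (v : Fin n → α),
      ∑ w, g w • φ (extend B w v) = 0) :
    Module.finrank ℝ V ≤ (Av n (List.ofFn w₀)).card * Module.finrank ℝ M := by
  classical
  let r : ((Fin n → α) → M) →ₗ[ℝ] ((Av n (List.ofFn w₀)) → M) :=
    LinearMap.funLeft ℝ M (fun v => (v : Fin n → α))
  have hinj : Injective (r.comp V.subtype) := by
    rw [← LinearMap.ker_eq_bot, LinearMap.ker_eq_bot']
    rintro ⟨φ, hφ⟩ h0
    have h1 : ∀ v ∈ Av n (List.ofFn w₀), φ v = 0 := by
      intro v hv
      have := congrFun h0 ⟨v, hv⟩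
      simpa [r, LinearMap.funLeft] using this
    have h2 : ∀ v : Lex (Fin n → α), φ (ofLex v) = 0 := by
      haveI : Finite (Lex (Fin n → α)) := inferInstanceAs (Finite (Fin n → α))
      intro v
      induction v using WellFoundedLT.induction with
      | ind v ih =>
        by_cases hv : ofLex v ∈ Av n (List.ofFn w₀)
        · exact h1 _ hv
        · rw [mem_Av, not_not] at hv
          rw [List.sublist_iff_exists_fin_orderEmbedding_get_eq] at hv
          obtain ⟨f, hf⟩ := hv
          have e1 : (List.ofFn w₀).length = m := List.length_ofFn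
          have e2 : (List.ofFn (ofLex v)).length = n := List.length_ofFn
          let B : Fin m ↪o Fin n :=
            ((Fin.castOrderIso e1.symm).toOrderEmbedding.trans f).trans
              (Fin.castOrderIso e2).toOrderEmbedding
          have hB : ∀ j, ofLex v (B j) = w₀ j := by
            intro j
            have := hf (Fin.cast e1.symm j)
            rw [List.get_ofFn, List.get_ofFn] at this
            simpa [B] using this.symm
          have h3 := hV φ hφ B (ofLex v)
          have h4 : extend B w₀ (ofLex v) = ofLex v := by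
            funext i
            by_cases hr : ∃ j, B j = i
            · obtain ⟨j, rfl⟩ := hr
              rw [B.injective.extend_apply, hB]
            · rw [extend_apply' _ _ _ hr]
          rw [← Finset.add_sum_erase _ _ (mem_univ w₀), h4] at h3
          have h5 : ∑ w ∈ univ.erase w₀, g w • φ (extend B w (ofLex v)) = 0 := by
            refine Finset.sum_eq_zero fun w hw => ?_
            by_cases hg : g w = 0
            · rw [hg, zero_smul]
            · have h6 : toLex w < toLex w₀ :=
                lt_of_le_of_ne (hmax w hg) fun h => (Finset.ne_of_mem_erase hw) (toLex.injective h)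
              have h7 := lex_extend B (ofLex v) h6
              rw [h4] at h7
              have h8 := ih (toLex (extend B w (ofLex v))) h7
              rw [ofLex_toLex] at h8
              rw [h8, smul_zero]
          rw [h5, add_zero, smul_eq_zero] at h3
          exact h3.resolve_left hw0
    ext v
    exact h2 (toLex v)
  calc Module.finrank ℝ V ≤ Module.finrank ℝ ((Av n (List.ofFn w₀)) → M) :=
        LinearMap.finrank_le_finrank_of_injective hinj
    _ = _ := by
        rw [Module.finrank_pi_fintype]
        simp

theorem elim {α : Type*} [Fintype α] (hα : 2 ≤ Fintype.card α) {m : ℕ}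
    (g : (Fin m → α) → ℝ) (hg : g ≠ 0) (n : ℕ) {M : Type*} [AddCommGroup M] [Module ℝ M]
    [FiniteDimensional ℝ M] (V : Submodule ℝ ((Fin n → α) → M))
    (hV : ∀ φ ∈ V, ∀ (B : Fin m ↪o Fin n) (v : Fin n → α),
      ∑ w, g w • φ (extend B w v) = 0) :
    Module.finrank ℝ V ≤ ((n + 1) ^ m * (Fintype.card α - 1) ^ n) * Module.finrank ℝ M := by
  classical
  letI : LinearOrder α := LinearOrder.lift' (Fintype.equivFin α) (Fintype.equivFin α).injective
  haveI : Finite (Lex (Fin m → α)) := inferInstanceAs (Finite (Fin m → α))
  haveI : Fintype (Lex (Fin m → α)) := Fintype.ofFinite _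
  obtain ⟨w₁, hw₁⟩ := Function.ne_iff.1 hg
  obtain ⟨w₀, hw₀, hmax⟩ := Finset.exists_max_image
    (univ.filter fun w : Fin m → α => g w ≠ 0) (fun w => toLex w)
    ⟨w₁, by simpa using hw₁⟩
  have h1 := elim_aux (n := n) g w₀ (by simpa using hw₀)
    (fun w hw => hmax w (by simpa using hw)) V hV
  refine h1.trans (Nat.mul_le_mul_right _ ?_)
  have h2 := card_Av_le hα n (List.ofFn w₀)
  rwa [List.length_ofFn] at h2

end Pool.Agent.Y38.CC
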