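import Mathlib

/-!
# Matching functions and their contractions
-/

set_option autoImplicit false

namespace Pool.Agent.Y38.CC

open Finset Function Equiv

variable {ι : Type*} [DecidableEq ι] {k : ℕ} {K : Type*} [Field K]

/-- The matching function attached to a set `L` of lower labels and a permutation. -/
def mt (K : Type*) [Field K] (L : Finset ι) (β : Perm ι) (a b : ι → Fin k) : K :=
  ∏ i ∈ L, if b i = a (β i) then 1 else 0

/-- Contraction of an upper label `u` with a lower label `l`. -/
def ctr (u l : ι) (F : (ι → Fin k) → (ι → Fin k) → K) : (ι → Fin k) → (ι → Fin k) → K :=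
  fun a b => ∑ x, F (update a u x) (update b l x)

theorem ctr_add (u l : ι) (F G : (ι → Fin k) → (ι → Fin k) → K) :
    ctr u l (F + G) = ctr u l F + ctr u l G := by
  funext a b
  simp [ctr, Finset.sum_add_distrib]

theorem ctr_smul (u l : ι) (c : K) (F : (ι → Fin k) → (ι → Fin k) → K) :
    ctr u l (c • F) = c • ctr u l F := by
  funext a b
  simp [ctr, Finset.mul_sum]

theorem ctr_mt_self (L : Finset ι) (β : Perm ι) {l : ι} (hl : l ∈ L) :
    ctr (K := K) (k := k) (β l) l (mt K L β) = (k : K) • mt K (L.erase l) β := by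
  funext a b
  rw [ctr]
  have h : ∀ x : Fin k, mt K L β (update a (β l) x) (update b l x) = mt K (L.erase l) β a b := by
    intro x
    rw [mt, mt, ← Finset.mul_prod_erase L _ hl, update_self, update_self, if_pos rfl, one_mul]
    refine Finset.prod_congr rfl fun i hi => ?_
    have hne : i ≠ l := Finset.ne_of_mem_erase hi
    rw [update_of_ne hne, update_of_ne (fun h => hne (β.injective h))]
  rw [Finset.sum_congr rfl fun x _ => h x]
  simp

theorem ctr_mt_ne (L : Finset ι) (β : Perm ι) {l i₁ : ι} (hl : l ∈ L) (hi : i₁ ∈ L)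
    (hne : i₁ ≠ l) :
    ctr (K := K) (k := k) (β i₁) l (mt K L β) = mt K (L.erase l) (β * swap l i₁) := by
  funext a b
  rw [ctr]
  have hi' : i₁ ∈ L.erase l := Finset.mem_erase.2 ⟨hne, hi⟩
  have h : ∀ x : Fin k, mt K L β (update a (β i₁) x) (update b l x) =
      ((if x = a (β l) then 1 else 0) * (if b i₁ = x then 1 else 0)) *
        ∏ i ∈ (L.erase l).erase i₁, if b i = a (β i) then 1 else 0 := by
    intro x
    rw [mt, ← Finset.mul_prod_erase L _ hl, ← Finset.mul_prod_erase (L.erase l) _ hi', update_self,
      update_of_ne (fun h => hne (β.injective h).symm), update_of_ne hne, update_self, ← mul_assoc]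
    congr 1
    refine Finset.prod_congr rfl fun i hi2 => ?_
    have h1 : i ≠ i₁ := Finset.ne_of_mem_erase hi2
    have h2 : i ≠ l := Finset.ne_of_mem_erase (Finset.mem_of_mem_erase hi2)
    rw [update_of_ne h2, update_of_ne (fun h => h1 (β.injective h))]
  rw [Finset.sum_congr rfl fun x _ => h x, ← Finset.sum_mul, mt,
    ← Finset.mul_prod_erase (L.erase l) _ hi', Perm.mul_apply, swap_apply_right]
  congr 1
  · rw [Finset.sum_eq_single (a (β l))]
    · simp
    · intro x _ hx
      rw [if_neg hx, zero_mul]
    · intro h; exact absurd (mem_univ _) h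
  · refine Finset.prod_congr rfl fun i hi2 => ?_
    have h1 : i ≠ i₁ := Finset.ne_of_mem_erase hi2
    have h2 : i ≠ l := Finset.ne_of_mem_erase (Finset.mem_of_mem_erase hi2)
    rw [Perm.mul_apply, swap_apply_of_ne_of_ne h2 h1]

/-- The span of the matching functions with upper labels `U` and lower labels `L`. -/
def TT (K : Type*) [Field K] (k : ℕ) (U L : Finset ι) :
    Submodule K ((ι → Fin k) → (ι → Fin k) → K) :=
  Submodule.span K {F | ∃ β : Perm ι, L.image β = U ∧ F = mt K L β}

theorem ctr_mem {U L : Finset ι} {u l : ι} (hu : u ∈ U) (hl : l ∈ L)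
    {F : (ι → Fin k) → (ι → Fin k) → K} (hF : F ∈ TT K k U L) :
    ctr u l F ∈ TT K k (U.erase u) (L.erase l) := by
  induction hF using Submodule.span_induction with
  | mem F hF =>
    obtain ⟨β, hβ, rfl⟩ := hF
    rw [← hβ, Finset.mem_image] at hu
    obtain ⟨i₁, hi₁, rfl⟩ := hu
    by_cases hne : i₁ = l
    · subst hne
      rw [ctr_mt_self L β hl]
      refine Submodule.smul_mem _ _ (Submodule.subset_span ⟨β, ?_, rfl⟩)
      rw [← hβ, Finset.image_erase β.injective]
    · rw [ctr_mt_ne L β hl hi₁ hne]
      refine Submodule.subset_span ⟨β * swap l i₁, ?_, rfl⟩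
      have h1 : L.image (β * swap l i₁) = U := by
        rw [← hβ]
        ext y
        simp only [Finset.mem_image, Perm.mul_apply]
        constructor
        · rintro ⟨i, hi, rfl⟩
          refine ⟨swap l i₁ i, ?_, rfl⟩
          by_cases h1 : i = l
          · subst h1; rwa [swap_apply_left]
          · by_cases h2 : i = i₁
            · subst h2; rwa [swap_apply_right]
            · rwa [swap_apply_of_ne_of_ne h1 h2]
        · rintro ⟨i, hi, rfl⟩
          refine ⟨swap l i₁ i, ?_, by rw [swap_apply_self]⟩
          by_cases h1 : i = l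
          · subst h1; rwa [swap_apply_left]
          · by_cases h2 : i = i₁
            · subst h2; rwa [swap_apply_right]
            · rwa [swap_apply_of_ne_of_ne h1 h2]
      rw [Finset.image_erase (β * swap l i₁).injective, h1, Perm.mul_apply, swap_apply_left]
  | zero =>
    have h0 : ctr u l (0 : (ι → Fin k) → (ι → Fin k) → K) = 0 := by
      funext a b; simp [ctr]
    rw [h0]; exact Submodule.zero_mem _
  | add F G _ _ hF hG => rw [ctr_add]; exact Submodule.add_mem _ hF hG
  | smul c F _ hF => rw [ctr_smul]; exact Submodule.smul_mem _ _ hF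

theorem extend_cons {m : ℕ} {β : Type*} (u : Fin (m + 1) → ι) (hu : Injective u) (x : Fin (m + 1) → β)
    (a : ι → β) :
    extend u x a =
      update (extend (fun j : Fin m => u j.succ) (fun j : Fin m => x j.succ) a) (u 0) (x 0) := by
  have hu' : Injective fun j : Fin m => u j.succ := fun i j h => Fin.succ_injective _ (hu h)
  funext i
  by_cases h0 : i = u 0
  · subst h0
    rw [hu.extend_apply, update_self]
  · rw [update_of_ne h0]
    by_cases hr : ∃ j, u j = i
    · obtain ⟨j, rfl⟩ := hr
      rw [hu.extend_apply]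
      obtain ⟨j', rfl⟩ : ∃ j', j = Fin.succ j' := by
        rcases Fin.eq_zero_or_eq_succ j with h | h
        · subst h; exact absurd rfl h0
        · exact h
      rw [hu'.extend_apply (fun j => x j.succ) a j']
    · rw [extend_apply' _ _ _ hr, extend_apply']
      rintro ⟨j, hj⟩
      exact hr ⟨_, hj⟩

theorem multi_ctr_mem {m : ℕ} : ∀ (U L : Finset ι) (u l : Fin m → ι), Injective u →
    Injective l → (∀ j, u j ∈ U) → (∀ j, l j ∈ L) → ∀ F ∈ TT K k U L,
    (fun a b => ∑ x : Fin m → Fin k, F (extend u x a) (extend l x b)) ∈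
      TT K k (U \ univ.image u) (L \ univ.image l) := by
  induction m with
  | zero =>
    intro U L u l _ _ _ _ F hF
    have h1 : (univ.image u) = ∅ := by simp
    have h2 : (univ.image l) = ∅ := by simp
    rw [h1, h2, sdiff_empty, sdiff_empty]
    have h3 : (fun a b => ∑ x : Fin 0 → Fin k, F (extend u x a) (extend l x b)) = F := by
      funext a b
      rw [Fintype.sum_unique]
      congr 1
      · congr 1
        funext i
        rw [extend_apply']
        rintro ⟨j, _⟩; exact j.elim0
      · funext i
        rw [extend_apply']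
        rintro ⟨j, _⟩; exact j.elim0
    rw [h3]
    exact hF
  | succ m ih =>
    intro U L u l hu hl huU hlL F hF
    have hu' : Injective fun j : Fin m => u j.succ := fun i j h => Fin.succ_injective _ (hu h)
    have hl' : Injective fun j : Fin m => l j.succ := fun i j h => Fin.succ_injective _ (hl h)
    have h1 := ih (U.erase (u 0)) (L.erase (l 0)) (fun j => u j.succ) (fun j => l j.succ) hu' hl'
      (fun j => Finset.mem_erase.2 ⟨fun h => Fin.succ_ne_zero j (hu h), huU _⟩)
      (fun j => Finset.mem_erase.2 ⟨fun h => Fin.succ_ne_zero j (hl h), hlL _⟩)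
      (ctr (u 0) (l 0) F) (ctr_mem (huU 0) (hlL 0) hF)
    have h2 : (fun a b => ∑ x : Fin (m + 1) → Fin k, F (extend u x a) (extend l x b)) =
        (fun a b => ∑ x : Fin m → Fin k,
          ctr (u 0) (l 0) F (extend (fun j => u j.succ) x a) (extend (fun j => l j.succ) x b)) := by
      funext a b
      rw [← (Fin.consEquiv (fun _ => Fin k)).sum_comp, Fintype.sum_prod_type, Finset.sum_comm]
      refine Finset.sum_congr rfl fun x _ => ?_
      rw [ctr]
      refine Finset.sum_congr rfl fun y _ => ?_
      rw [extend_cons u hu, extend_cons l hl]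
      rfl
    rw [h2]
    have h3 : ∀ (U : Finset ι) (u : Fin (m + 1) → ι),
        (U.erase (u 0)) \ univ.image (fun j : Fin m => u j.succ) = U \ univ.image u := by
      intro U u
      ext i
      simp only [Finset.mem_sdiff, Finset.mem_erase, Finset.mem_image, mem_univ, true_and,
        not_exists]
      constructor
      · rintro ⟨⟨h1, h2⟩, h3⟩
        refine ⟨h2, fun j => ?_⟩
        rcases Fin.eq_zero_or_eq_succ j with h | ⟨j', h⟩
        · subst h; exact fun h => h1 h.symm
        · subst h; exact h3 j'
      · rintro ⟨h1, h2⟩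
        exact ⟨⟨fun h => h2 0 h.symm, h1⟩, fun j => h2 _⟩
    rw [h3 U u, h3 L l] at h1
    exact h1

end Pool.Agent.Y38.CC
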