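import Mathlib
import Pool.Agent.Y38.CC.Mt

/-!
# Relabelling of matching functions
-/

set_option autoImplicit false
set_option linter.unusedSectionVars false

namespace Pool.Agent.Y38.CC

open Finset Function Equiv Module

variable {ι : Type*} [DecidableEq ι] {κ : Type*} [DecidableEq κ] [Fintype κ]
  {k : ℕ} {K : Type*} [Field K]

/-- Pulling back functions along maps of labels. -/
def pull (K : Type*) [Field K] (k : ℕ) (eU eL : κ → ι) :
    ((κ → Fin k) → (κ → Fin k) → K) →ₗ[K] ((ι → Fin k) → (ι → Fin k) → K) where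
  toFun F := fun a b => F (a ∘ eU) (b ∘ eL)
  map_add' _ _ := rfl
  map_smul' _ _ := rfl

theorem exists_ext {α β : Type*} [Nonempty β] (e : α → ι) (he : Injective e) (x : α → β) :
    ∃ y : ι → β, y ∘ e = x := by
  refine ⟨extend e x (fun _ => Classical.arbitrary β), ?_⟩
  funext i
  exact he.extend_apply _ _ i

theorem pull_injective [NeZero k] {eU eL : κ → ι} (hU : Injective eU) (hL : Injective eL) :
    Injective (pull K k eU eL) := by
  have hne : Nonempty (Fin k) := ⟨0⟩
  intro F G h
  funext a b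
  obtain ⟨a', ha'⟩ := exists_ext eU hU a
  obtain ⟨b', hb'⟩ := exists_ext eL hL b
  have := congrFun (congrFun h a') b'
  change F (a' ∘ eU) (b' ∘ eL) = G (a' ∘ eU) (b' ∘ eL) at this
  rwa [ha', hb'] at this

theorem pull_mt [Finite ι] {eU eL : κ → ι} (hU : Injective eU) (hL : Injective eL) (ρ : Perm κ) :
    pull K k eU eL (mt K univ ρ) ∈ TT K k (univ.image eU) (univ.image eL) := by
  classical
  have hft : Fintype ι := Fintype.ofFinite ι
  let e1 : {x // x ∈ univ.image eL} ≃ κ :=
    (Equiv.ofBijective (fun j : κ => (⟨eL j, mem_image_of_mem _ (mem_univ j)⟩ :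
      {x // x ∈ univ.image eL}))
      ⟨fun i j h => hL (congrArg Subtype.val h), fun ⟨x, hx⟩ => by
        obtain ⟨j, _, rfl⟩ := mem_image.1 hx
        exact ⟨j, rfl⟩⟩).symm
  let e2 : κ ≃ {x // x ∈ univ.image eU} :=
    (Equiv.ofBijective (fun j : κ => (⟨eU j, mem_image_of_mem _ (mem_univ j)⟩ :
      {x // x ∈ univ.image eU}))
      ⟨fun i j h => hU (congrArg Subtype.val h), fun ⟨x, hx⟩ => by
        obtain ⟨j, _, rfl⟩ := mem_image.1 hx
        exact ⟨j, rfl⟩⟩)
  let e : {x // x ∈ univ.image eL} ≃ {x // x ∈ univ.image eU} := (e1.trans ρ).trans e2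
  have he : ∀ j, ((e ⟨eL j, mem_image_of_mem _ (mem_univ j)⟩ : {x // x ∈ univ.image eU}) : ι) =
      eU (ρ j) := by
    intro j
    have h1 : e1 ⟨eL j, mem_image_of_mem _ (mem_univ j)⟩ = j := by
      rw [Equiv.symm_apply_eq]; rfl
    change ((e2 (ρ (e1 _))) : ι) = _
    rw [h1]
    rfl
  have hβ : ∀ j, e.extendSubtype (eL j) = eU (ρ j) := by
    intro j
    rw [Equiv.extendSubtype_apply_of_mem _ _ (mem_image_of_mem _ (mem_univ j)), he]
  refine Submodule.subset_span ⟨e.extendSubtype, ?_, ?_⟩
  · ext y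
    simp only [Finset.mem_image, mem_univ, true_and, exists_exists_eq_and]
    constructor
    · rintro ⟨j, rfl⟩
      exact ⟨ρ j, (hβ j).symm⟩
    · rintro ⟨j, rfl⟩
      exact ⟨ρ.symm j, by rw [hβ, Equiv.apply_symm_apply]⟩
  · funext a b
    change ∏ i, (if b (eL i) = a (eU (ρ i)) then (1 : K) else 0) = _
    rw [mt, Finset.prod_image (fun i _ j _ h => hL h)]
    refine Finset.prod_congr rfl fun i _ => ?_
    rw [hβ]

theorem mt_eq_pull {eU eL : κ → ι} (_hU : Injective eU) (hL : Injective eL)
    (β : Perm ι) (hβ : (univ.image eL).image β = univ.image eU) :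
    ∃ ρ : Perm κ, mt (k := k) K (univ.image eL) β = pull K k eU eL (mt K univ ρ) := by
  classical
  have h1 : ∀ j : κ, ∃ i : κ, eU i = β (eL j) := by
    intro j
    have : β (eL j) ∈ univ.image eU := by
      rw [← hβ]; exact mem_image_of_mem _ (mem_image_of_mem _ (mem_univ j))
    obtain ⟨i, _, hi⟩ := mem_image.1 this
    exact ⟨i, hi⟩
  choose r hr using h1
  have hrinj : Injective r := by
    intro i j h
    have h2 := hr i
    rw [h, hr j] at h2
    exact hL (β.injective h2.symm)
  refine ⟨Equiv.ofBijective r (Finite.injective_iff_bijective.1 hrinj), ?_⟩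
  funext a b
  rw [mt, Finset.prod_image (fun i _ j _ h => hL h)]
  change _ = ∏ i, (if b (eL i) = a (eU (r i)) then (1 : K) else 0)
  refine Finset.prod_congr rfl fun i _ => ?_
  rw [hr]

theorem map_pull [Finite ι] {eU eL : κ → ι} (hU : Injective eU) (hL : Injective eL) :
    (TT K k (univ : Finset κ) univ).map (pull K k eU eL) =
      TT K k (univ.image eU) (univ.image eL) := by
  apply le_antisymm
  · rw [Submodule.map_le_iff_le_comap, TT, Submodule.span_le]
    rintro _ ⟨β, _, rfl⟩
    exact pull_mt hU hL β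
  · rw [TT, Submodule.span_le]
    rintro _ ⟨β, hβ, rfl⟩
    obtain ⟨ρ, hρ⟩ := mt_eq_pull (K := K) (k := k) hU hL β hβ
    rw [hρ]
    refine Submodule.mem_map_of_mem (Submodule.subset_span ⟨ρ, ?_, rfl⟩)
    exact Finset.image_univ_equiv ρ

/-- The trace codimension. -/
noncomputable def tn (K : Type*) [Field K] (k n : ℕ) : ℕ :=
  finrank K (TT K k (univ : Finset (Fin n)) univ)

theorem finrank_TT [Finite ι] [NeZero k] {n : ℕ} {U L : Finset ι} (hU : U.card = n)
    (hL : L.card = n) : finrank K (TT K k U L) = tn K k n := by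
  classical
  have key : ∀ U : Finset ι, U.card = n → ∃ e : Fin n → ι, Injective e ∧ univ.image e = U := by
    intro U hU
    refine ⟨fun j => ((U.equivFinOfCardEq hU).symm j : ι), fun i j h => ?_, ?_⟩
    · exact (U.equivFinOfCardEq hU).symm.injective (Subtype.ext h)
    · ext x
      simp only [Finset.mem_image, mem_univ, true_and]
      constructor
      · rintro ⟨j, rfl⟩
        exact ((U.equivFinOfCardEq hU).symm j).2
      · intro hx
        exact ⟨U.equivFinOfCardEq hU ⟨x, hx⟩, by simp⟩
  obtain ⟨eU, heU, rfl⟩ := key U hU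
  obtain ⟨eL, heL, rfl⟩ := key L hL
  rw [← map_pull heU heL, tn]
  exact LinearEquiv.finrank_eq
    (Submodule.equivMapOfInjective _ (pull_injective heU heL) _).symm

end Pool.Agent.Y38.CC
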