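import Mathlib
import Pool.Agent.Y38.CC.Relabel
import Pool.Agent.Y38.CC.Elim

/-!
# Codimension bounds from a conductor
-/

set_option autoImplicit false
set_option linter.unusedSectionVars false

namespace Pool.Agent.Y38.CC

open Finset Function Equiv Module

section Contraction

variable {ι : Type*} [DecidableEq ι] [Fintype ι] {k m : ℕ}

/-- Contraction of the labels in the range of `e` with the function `g`. -/
noncomputable def cg (g : (Fin m → Fin k) → (Fin m → Fin k) → ℝ) (e : Fin m → ι)
    (φ : (ι → Fin k) → (ι → Fin k) → ℝ) : (ι → Fin k) → (ι → Fin k) → ℝ :=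
  fun a b => ∑ x, ∑ y, g x y * φ (extend e x a) (extend e y b)

theorem extend_extend {e : Fin m → ι} (he : Injective e) (x y : Fin m → Fin k) (a : ι → Fin k) :
    extend e x (extend e y a) = extend e x a := by
  funext i
  by_cases h : ∃ j, e j = i
  · obtain ⟨j, rfl⟩ := h
    rw [he.extend_apply, he.extend_apply]
  · rw [extend_apply' _ _ _ h, extend_apply' _ _ _ h, extend_apply' _ _ _ h]

theorem extend_restrict {e : Fin m → ι} (he : Injective e) (a : ι → Fin k) :
    extend e (a ∘ e) a = a := by
  funext i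
  by_cases h : ∃ j, e j = i
  · obtain ⟨j, rfl⟩ := h
    rw [he.extend_apply]; rfl
  · rw [extend_apply' _ _ _ h]

theorem extend_comp_self {e : Fin m → ι} (he : Injective e) (x : Fin m → Fin k) (a : ι → Fin k) :
    extend e x a ∘ e = x := by
  funext j
  exact he.extend_apply _ _ j

theorem cg_indep (g : (Fin m → Fin k) → (Fin m → Fin k) → ℝ) {e : Fin m → ι} (he : Injective e)
    (φ : (ι → Fin k) → (ι → Fin k) → ℝ) (x y : Fin m → Fin k) (a b : ι → Fin k) :
    cg g e φ (extend e x a) (extend e y b) = cg g e φ a b := by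
  rw [cg, cg]
  refine Finset.sum_congr rfl fun x' _ => Finset.sum_congr rfl fun y' _ => ?_
  rw [extend_extend he, extend_extend he]

theorem cg_mt {e : Fin m → ι} (he : Injective e) (γ : Perm (Fin m))
    (φ : (ι → Fin k) → (ι → Fin k) → ℝ) :
    cg (mt ℝ univ γ) e φ = fun a b => ∑ x : Fin m → Fin k,
      φ (extend e x a) (extend (fun j => e (γ.symm j)) x b) := by
  funext a b
  rw [cg]
  refine Finset.sum_congr rfl fun x _ => ?_
  have he' : Injective (fun j => e (γ.symm j)) := he.comp γ.symm.injective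
  rw [Finset.sum_eq_single (x ∘ γ)]
  · have h1 : mt ℝ univ γ x (x ∘ γ) = 1 := by
      rw [mt]
      exact Finset.prod_eq_one fun i _ => if_pos rfl
    rw [h1, one_mul]
    congr 1
    funext i
    by_cases h : ∃ j, e j = i
    · obtain ⟨j, rfl⟩ := h
      rw [he.extend_apply]
      have h2 := he'.extend_apply x b (γ j)
      simp only [symm_apply_apply] at h2
      rw [h2]; rfl
    · rw [extend_apply' _ _ _ h, extend_apply']
      rintro ⟨j, hj⟩
      exact h ⟨_, hj⟩
  · intro y _ hy
    have h1 : mt ℝ univ γ x y = 0 := by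
      rw [mt]
      obtain ⟨i, hi⟩ := Function.ne_iff.1 hy
      exact Finset.prod_eq_zero (mem_univ i) (if_neg hi)
    rw [h1, zero_mul]
  · intro h; exact absurd (mem_univ _) h

theorem cg_mem {e : Fin m → ι} (he : Injective e)
    {g : (Fin m → Fin k) → (Fin m → Fin k) → ℝ} (hg : g ∈ TT ℝ k (univ : Finset (Fin m)) univ)
    {φ : (ι → Fin k) → (ι → Fin k) → ℝ} (hφ : φ ∈ TT ℝ k (univ : Finset ι) univ) :
    cg g e φ ∈ TT ℝ k (univ \ univ.image e) (univ \ univ.image e) := by
  induction hg using Submodule.span_induction with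
  | mem g hg =>
    obtain ⟨γ, _, rfl⟩ := hg
    rw [cg_mt he]
    have h := multi_ctr_mem (K := ℝ) (k := k) (univ : Finset ι) univ e (fun j => e (γ.symm j)) he
      (he.comp γ.symm.injective) (fun _ => mem_univ _) (fun _ => mem_univ _) φ hφ
    have h2 : univ.image (fun j => e (γ.symm j)) = univ.image e := by
      ext i
      simp only [Finset.mem_image, mem_univ, true_and]
      constructor
      · rintro ⟨j, rfl⟩; exact ⟨_, rfl⟩
      · rintro ⟨j, rfl⟩; exact ⟨γ j, by rw [symm_apply_apply]⟩
    rw [h2] at h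
    exact h
  | zero =>
    have h0 : cg (0 : (Fin m → Fin k) → (Fin m → Fin k) → ℝ) e φ = 0 := by
      funext a b; simp [cg]
    rw [h0]; exact Submodule.zero_mem _
  | add g g' _ _ hg hg' =>
    have h0 : cg (g + g') e φ = cg g e φ + cg g' e φ := by
      funext a b; simp [cg, add_mul, Finset.sum_add_distrib]
    rw [h0]; exact Submodule.add_mem _ hg hg'
  | smul c g _ hg =>
    have h0 : cg (c • g) e φ = c • cg g e φ := by
      funext a b; simp [cg, mul_assoc, Finset.mul_sum]
    rw [h0]; exact Submodule.smul_mem _ c hg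

/-- The pairing on functions. -/
def dot (φ ψ : (ι → Fin k) → (ι → Fin k) → ℝ) : ℝ := ∑ a, ∑ b, φ a b * ψ a b

/-- Exchange of coordinates. -/
noncomputable def swp {e : Fin m → ι} (he : Injective e) :
    ((ι → Fin k) × (Fin m → Fin k)) ≃ ((ι → Fin k) × (Fin m → Fin k)) where
  toFun p := (extend e p.2 p.1, p.1 ∘ e)
  invFun p := (extend e p.2 p.1, p.1 ∘ e)
  left_inv := by
    rintro ⟨a, x⟩
    refine Prod.ext ?_ ?_
    · change extend e (a ∘ e) (extend e x a) = a
      rw [extend_extend he, extend_restrict he]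
    · exact extend_comp_self he x a
  right_inv := by
    rintro ⟨a, x⟩
    refine Prod.ext ?_ ?_
    · change extend e (a ∘ e) (extend e x a) = a
      rw [extend_extend he, extend_restrict he]
    · exact extend_comp_self he x a

theorem sum_swp {e : Fin m → ι} (he : Injective e)
    (L : (ι → Fin k) → (ι → Fin k) → ℝ) :
    ∑ a, ∑ b, ∑ x : Fin m → Fin k, ∑ y : Fin m → Fin k, L (extend e x a) (extend e y b) =
      ((k : ℝ) ^ m) ^ 2 * ∑ a, ∑ b, L a b := by
  have h1 : ∀ M : (ι → Fin k) → ℝ, ∑ a, ∑ x : Fin m → Fin k, M (extend e x a) =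
      (k : ℝ) ^ m * ∑ a, M a := by
    intro M
    have := (swp (k := k) he).sum_comp (fun p => M p.1)
    rw [Fintype.sum_prod_type, Fintype.sum_prod_type] at this
    change ∑ a, ∑ x : Fin m → Fin k, M (extend e x a) = _ at this
    rw [this, Finset.mul_sum]
    refine Finset.sum_congr rfl fun a _ => ?_
    change ∑ _ : Fin m → Fin k, M a = _
    rw [Finset.sum_const, Finset.card_univ, Fintype.card_fun, Fintype.card_fin, Fintype.card_fin,
      nsmul_eq_mul, Nat.cast_pow]
  calc ∑ a, ∑ b, ∑ x : Fin m → Fin k, ∑ y : Fin m → Fin k, L (extend e x a) (extend e y b)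
      = ∑ a, ∑ x : Fin m → Fin k, ∑ b, ∑ y : Fin m → Fin k, L (extend e x a) (extend e y b) :=
        Finset.sum_congr rfl fun a _ => Finset.sum_comm
    _ = ∑ a, ∑ x : Fin m → Fin k, (k : ℝ) ^ m * ∑ b, L (extend e x a) b :=
        Finset.sum_congr rfl fun a _ => Finset.sum_congr rfl fun x _ => h1 _
    _ = (k : ℝ) ^ m * ∑ a, (k : ℝ) ^ m * ∑ b, L a b := h1 (fun a => (k : ℝ) ^ m * ∑ b, L a b)
    _ = _ := by rw [← Finset.mul_sum]; ring

theorem cg_eq_zero {e : Fin m → ι} (he : Injective e)
    (g : (Fin m → Fin k) → (Fin m → Fin k) → ℝ)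
    (φ : (ι → Fin k) → (ι → Fin k) → ℝ)
    (h : dot φ (fun a b => g (a ∘ e) (b ∘ e) * cg g e φ a b) = 0) : cg g e φ = 0 := by
  have h1 : ∑ a, ∑ b, cg g e φ a b * cg g e φ a b = 0 := by
    have h2 : ∀ a b, cg g e φ a b * cg g e φ a b = ∑ x : Fin m → Fin k, ∑ y : Fin m → Fin k,
        (fun a' b' => φ a' b' * (g (a' ∘ e) (b' ∘ e) * cg g e φ a' b')) (extend e x a)
          (extend e y b) := by
      intro a b
      conv_lhs => rw [cg, Finset.sum_mul]
      refine Finset.sum_congr rfl fun x _ => ?_
      rw [Finset.sum_mul]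
      refine Finset.sum_congr rfl fun y _ => ?_
      simp only []
      rw [extend_comp_self he, extend_comp_self he, cg_indep g he]
      rw [cg]
      ring
    rw [Finset.sum_congr rfl fun a _ => Finset.sum_congr rfl fun b _ => h2 a b]
    rw [sum_swp he (fun a' b' => φ a' b' * (g (a' ∘ e) (b' ∘ e) * cg g e φ a' b'))]
    rw [dot] at h
    rw [h, mul_zero]
  funext a b
  have h3 := (Finset.sum_eq_zero_iff_of_nonneg (fun a _ => Finset.sum_nonneg
    fun b _ => mul_self_nonneg (cg g e φ a b))).1 h1 a (mem_univ a)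
  have h4 := (Finset.sum_eq_zero_iff_of_nonneg
    (fun b _ => mul_self_nonneg (cg g e φ a b))).1 h3 b (mem_univ b)
  exact mul_self_eq_zero.1 h4

/-- The pairing as a bilinear map. -/
def dotL : ((ι → Fin k) → (ι → Fin k) → ℝ) →ₗ[ℝ] ((ι → Fin k) → (ι → Fin k) → ℝ) →ₗ[ℝ] ℝ :=
  LinearMap.mk₂ ℝ dot
    (fun φ φ' ψ => by simp [dot, add_mul, Finset.sum_add_distrib])
    (fun c φ ψ => by simp [dot, mul_assoc, Finset.mul_sum])
    (fun φ ψ ψ' => by simp [dot, mul_add, Finset.sum_add_distrib])
    (fun c φ ψ => by simp [dot, mul_left_comm, Finset.mul_sum])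

theorem exists_fix {S : Finset ι} {β : Perm ι} (h : S.image β = S) :
    ∃ β' : Perm ι, (∀ i ∈ S, β' i = β i) ∧ ∀ i, i ∉ S → β' i = i := by
  classical
  have h1 : ∀ i, i ∈ S ↔ β i ∈ S := by
    intro i
    constructor
    · intro hi
      have := mem_image_of_mem β hi
      rwa [h] at this
    · intro hi
      rw [← h, mem_image] at hi
      obtain ⟨j, hj, hji⟩ := hi
      rwa [β.injective hji] at hj
  refine ⟨Perm.ofSubtype (β.subtypePerm (fun i => (h1 i).symm)), fun i hi => ?_, fun i hi => ?_⟩
  · rw [Perm.ofSubtype_apply_of_mem _ hi]; rfl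
  · exact Perm.ofSubtype_apply_of_not_mem _ hi

theorem mt_congr {S : Finset ι} {β β' : Perm ι} (h : ∀ i ∈ S, β' i = β i) :
    mt (k := k) ℝ S β' = mt ℝ S β := by
  funext a b
  rw [mt, mt]
  exact Finset.prod_congr rfl fun i hi => by rw [h i hi]

end Contraction

section Bound

variable {E : Type*} [Fintype E] [DecidableEq E] {k n m : ℕ}

theorem elim_extend (B : Fin m → Fin n) (hB : Injective B) (w : Fin m → Fin k × Fin k)
    (v : Fin n → Fin k × Fin k) (f : Fin k × Fin k → Fin k) (c : E → Fin k) :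
    Sum.elim (fun i => f (extend B w v i)) c =
      extend (fun j => (Sum.inl (B j) : Fin n ⊕ E)) (fun j => f (w j))
        (Sum.elim (fun i => f (v i)) c) := by
  have he : Injective (fun j => (Sum.inl (B j) : Fin n ⊕ E)) := Sum.inl_injective.comp hB
  funext i
  rcases i with i | i
  · by_cases h : ∃ j, B j = i
    · obtain ⟨j, rfl⟩ := h
      rw [he.extend_apply (fun j => f (w j)) _ j, Sum.elim_inl, hB.extend_apply]
    · rw [extend_apply', Sum.elim_inl, Sum.elim_inl, extend_apply' _ _ _ h]
      rintro ⟨j, hj⟩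
      exact h ⟨j, Sum.inl_injective hj⟩
  · rw [extend_apply', Sum.elim_inr, Sum.elim_inr]
    rintro ⟨j, hj⟩
    exact Sum.inl_ne_inr hj

/-- Separating the first labels from the extra labels. -/
def sep (n k : ℕ) (E : Type*) : ((Fin n ⊕ E → Fin k) → (Fin n ⊕ E → Fin k) → ℝ) →ₗ[ℝ]
    ((Fin n → Fin k × Fin k) → (E → Fin k) → (E → Fin k) → ℝ) where
  toFun φ := fun v c d => φ (Sum.elim (fun i => (v i).1) c) (Sum.elim (fun i => (v i).2) d)
  map_add' _ _ := rfl
  map_smul' _ _ := rfl

theorem sep_injective : Injective (sep n k E) := by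
  intro φ φ' h
  funext a b
  have := congrFun (congrFun (congrFun h (fun i => (a (Sum.inl i), b (Sum.inl i))))
    (fun i => a (Sum.inr i))) (fun i => b (Sum.inr i))
  change φ (Sum.elim (a ∘ Sum.inl) (a ∘ Sum.inr)) (Sum.elim (b ∘ Sum.inl) (b ∘ Sum.inr)) =
    φ' (Sum.elim (a ∘ Sum.inl) (a ∘ Sum.inr)) (Sum.elim (b ∘ Sum.inl) (b ∘ Sum.inr)) at this
  rwa [Sum.elim_comp_inl_inr, Sum.elim_comp_inl_inr] at this

theorem cond_bound (hk : 2 ≤ k) (g : (Fin m → Fin k) → (Fin m → Fin k) → ℝ) (hg : g ≠ 0)
    (hgT : g ∈ TT ℝ k (univ : Finset (Fin m)) univ)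
    (W : Submodule ℝ ((Fin n ⊕ E → Fin k) → (Fin n ⊕ E → Fin k) → ℝ))
    (hcond : ∀ (B : Fin m → Fin n), Injective B → ∀ (β : Perm (Fin n ⊕ E)),
      (∀ j, β (Sum.inl (B j)) = Sum.inl (B j)) →
      (fun a b => g (fun j => a (Sum.inl (B j))) (fun j => b (Sum.inl (B j))) *
        mt ℝ (univ \ univ.image (fun j => (Sum.inl (B j) : Fin n ⊕ E))) β a b) ∈ W) :
    finrank ℝ (TT ℝ k (univ : Finset (Fin n ⊕ E)) univ) ≤
      finrank ℝ W + ((n + 1) ^ m * (k ^ 2 - 1) ^ n) * (k ^ Fintype.card E) ^ 2 := by
  classical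
  set T := TT ℝ k (univ : Finset (Fin n ⊕ E)) univ with hT
  -- the map to the dual of W
  let D : T →ₗ[ℝ] (W →ₗ[ℝ] ℝ) :=
    { toFun := fun φ => (dotL (φ : (Fin n ⊕ E → Fin k) → (Fin n ⊕ E → Fin k) → ℝ)).comp W.subtype
      map_add' := fun φ ψ => by ext w; simp
      map_smul' := fun c φ => by ext w; simp }
  have h1 := LinearMap.finrank_range_add_finrank_ker D
  have h2 : finrank ℝ (LinearMap.range D) ≤ finrank ℝ W := by
    refine (Submodule.finrank_le _).trans (le_of_eq ?_)
    exact Subspace.dual_finrank_eq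
  -- the kernel
  have h3 : finrank ℝ (LinearMap.ker D) ≤
      ((n + 1) ^ m * (k ^ 2 - 1) ^ n) * (k ^ Fintype.card E) ^ 2 := by
    let V : Submodule ℝ ((Fin n → Fin k × Fin k) → (E → Fin k) → (E → Fin k) → ℝ) :=
      (LinearMap.ker D).map ((sep n k E).comp T.subtype)
    have h4 : finrank ℝ (LinearMap.ker D) = finrank ℝ V := by
      refine LinearEquiv.finrank_eq (Submodule.equivMapOfInjective _ ?_ _)
      exact sep_injective.comp T.injective_subtype
    rw [h4]
    have hα : 2 ≤ Fintype.card (Fin k × Fin k) := by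
      rw [Fintype.card_prod, Fintype.card_fin]; nlinarith
    have h5 := elim hα (fun w : Fin m → Fin k × Fin k => g (fun j => (w j).1) (fun j => (w j).2))
      (by
        intro h0
        apply hg
        funext x y
        exact congrFun h0 (fun j => (x j, y j))) n V (by
      rintro _ ⟨⟨φ, hφT⟩, hφ, rfl⟩ B v
      rw [SetLike.mem_coe, LinearMap.mem_ker] at hφ
      have hφ' : ∀ w ∈ W, dot φ w = 0 := fun w hw => LinearMap.congr_fun hφ ⟨w, hw⟩
      have he : Injective (fun j => (Sum.inl (B j) : Fin n ⊕ E)) :=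
        Sum.inl_injective.comp B.injective
      have hz : cg g (fun j => (Sum.inl (B j) : Fin n ⊕ E)) φ = 0 := by
        apply cg_eq_zero he
        have hm := cg_mem he hgT hφT
        have hsub : ∀ ψ ∈ TT ℝ k (univ \ univ.image (fun j => (Sum.inl (B j) : Fin n ⊕ E)))
            (univ \ univ.image (fun j => (Sum.inl (B j) : Fin n ⊕ E))),
            dot φ (fun a b => g (a ∘ (fun j => (Sum.inl (B j) : Fin n ⊕ E)))
              (b ∘ (fun j => (Sum.inl (B j) : Fin n ⊕ E))) * ψ a b) = 0 := by
          intro ψ hψ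
          induction hψ using Submodule.span_induction with
          | mem ψ hψ =>
            obtain ⟨β, hβ, rfl⟩ := hψ
            obtain ⟨β', hβ1, hβ2⟩ := exists_fix hβ
            rw [← mt_congr hβ1]
            apply hφ'
            apply hcond B B.injective β'
            intro j
            apply hβ2
            simp
          | zero => simp [dot]
          | add ψ ψ' _ _ h h' =>
            have := congrArg₂ (· + ·) h h'
            simp only [add_zero] at this
            rw [← this, dot, dot, dot, ← Finset.sum_add_distrib]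
            refine Finset.sum_congr rfl fun a _ => ?_
            rw [← Finset.sum_add_distrib]
            refine Finset.sum_congr rfl fun b _ => ?_
            rw [Pi.add_apply, Pi.add_apply]
            ring
          | smul c ψ _ h =>
            have := congrArg (c * ·) h
            simp only [mul_zero] at this
            rw [← this, dot, dot, Finset.mul_sum]
            refine Finset.sum_congr rfl fun a _ => ?_
            rw [Finset.mul_sum]
            refine Finset.sum_congr rfl fun b _ => ?_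
            rw [Pi.smul_apply, Pi.smul_apply, smul_eq_mul]
            ring
        exact hsub _ hm
      funext c d
      rw [Finset.sum_apply, Finset.sum_apply]
      have hz' := congrFun (congrFun hz (Sum.elim (fun i => (v i).1) c))
        (Sum.elim (fun i => (v i).2) d)
      rw [cg, ← Fintype.sum_prod_type'] at hz'
      refine Eq.trans ?_ hz'
      refine Fintype.sum_equiv (Equiv.arrowProdEquivProdArrow (Fin m) (fun _ => Fin k)
        (fun _ => Fin k)) _ _ fun w => ?_
      simp only [Pi.smul_apply, smul_eq_mul]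
      change g _ _ * φ (Sum.elim (fun i => (extend B w v i).1) c)
        (Sum.elim (fun i => (extend B w v i).2) d) = _
      rw [elim_extend B B.injective w v Prod.fst c, elim_extend B B.injective w v Prod.snd d]
      rfl)
    rw [Fintype.card_prod, Fintype.card_fin, ← sq] at h5
    refine h5.trans (le_of_eq ?_)
    congr 1
    rw [Module.finrank_pi_fintype]
    simp [sq]
  omega

end Bound

end Pool.Agent.Y38.CC
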