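import Mathlib

/-!
# The rank of an integer family does not depend on the field of characteristic zero
-/

set_option autoImplicit false

namespace Pool.Agent.Y38.CC

open Function Set Module

variable {ι J : Type*} [Finite J]

/-- Casting an integer family to a field. -/
def cst (K : Type*) [Field K] (v : ι → J → ℤ) : ι → J → K := fun i j => (v i j : K)

theorem cst_indep {K : Type*} [Field K] [CharZero K] {κ : Type*} (v : κ → J → ℤ) :
    LinearIndependent K (cst K v) ↔ LinearIndependent ℤ v := by
  have h := linearIndependent_algebraMap_comp_iff (R := ℤ) (S := K) (v := v)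
  rw [← h]
  rfl

theorem rank_indep_rat (K : Type*) [Field K] [CharZero K] (v : ι → J → ℤ) :
    finrank K (Submodule.span K (range (cst K v))) =
      finrank ℚ (Submodule.span ℚ (range (cst ℚ v))) := by
  obtain ⟨κ, a, ha, hspan, hind⟩ := exists_linearIndependent' ℚ (cst ℚ v)
  have hindK : LinearIndependent K (cst K v ∘ a) := by
    have h1 : LinearIndependent ℤ (v ∘ a) := (cst_indep (K := ℚ) (v ∘ a)).1 hind
    exact (cst_indep (K := K) (v ∘ a)).2 h1
  have hspanK : Submodule.span K (range (cst K v ∘ a)) = Submodule.span K (range (cst K v)) := by
    apply le_antisymm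
    · exact Submodule.span_mono (range_comp_subset_range a _)
    · rw [Submodule.span_le]
      rintro _ ⟨i, rfl⟩
      have hi : cst ℚ v i ∈ Submodule.span ℚ (range (cst ℚ v ∘ a)) := by
        rw [hspan]; exact Submodule.subset_span ⟨i, rfl⟩
      have hgen : ∀ x ∈ Submodule.span ℚ (range (cst ℚ v ∘ a)),
          (fun j => ((x j : ℚ) : K)) ∈ Submodule.span K (range (cst K v ∘ a)) := by
        intro x hx
        induction hx using Submodule.span_induction with
        | mem x hx =>
          obtain ⟨c, rfl⟩ := hx
          apply Submodule.subset_span
          refine ⟨c, ?_⟩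
          funext j
          simp [cst]
        | zero =>
          have h0 : (fun j : J => (((0 : J → ℚ) j : ℚ) : K)) = 0 := by funext j; simp
          rw [h0]
          exact Submodule.zero_mem _
        | add x y _ _ hx hy =>
          have h0 : (fun j : J => (((x + y) j : ℚ) : K)) =
            (fun j => ((x j : ℚ) : K)) + fun j => ((y j : ℚ) : K) := by funext j; simp
          rw [h0]
          exact Submodule.add_mem _ hx hy
        | smul q x _ hx =>
          have h0 : (fun j : J => (((q • x) j : ℚ) : K)) =
            (q : K) • fun j => ((x j : ℚ) : K) := by funext j; simp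
          rw [h0]
          exact Submodule.smul_mem _ (q : K) hx
      have h1 := hgen _ hi
      have h0 : (fun j : J => ((cst ℚ v i j : ℚ) : K)) = cst K v i := by funext j; simp [cst]
      rw [h0] at h1
      exact h1
  have hf : Finite κ := hind.finite_of_isNoetherian
  have hft : Fintype κ := Fintype.ofFinite κ
  rw [← hspanK, finrank_span_eq_card hindK, ← hspan, finrank_span_eq_card hind]

theorem rank_indep (K L : Type*) [Field K] [CharZero K] [Field L] [CharZero L]
    (v : ι → J → ℤ) :
    finrank K (Submodule.span K (range (cst K v))) =
      finrank L (Submodule.span L (range (cst L v))) := by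
  rw [rank_indep_rat K, rank_indep_rat L]

end Pool.Agent.Y38.CC
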