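import Mathlib
import Pool.Agent.Y38.CC.IntRank

/-!
# Codimensions and central codimensions of matrices as ranks of integer families
-/

set_option autoImplicit false
set_option linter.unusedSectionVars false

namespace Pool.Agent.Y38.CC

open Finset Function Equiv Module

/-- Products of matrix units. -/
theorem prod_units (K : Type*) [CommRing K] {k : ℕ} (n : ℕ) (α β : Fin n → Fin k) (p q : Fin k) :
    (List.ofFn fun i => Matrix.single (α i) (β i) (1 : K)).prod p q =
      if (Fin.cons p β : Fin (n + 1) → Fin k) = (Fin.snoc α q : Fin (n + 1) → Fin k) then 1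
      else 0 := by
  induction n generalizing p with
  | zero =>
    have h : ((Fin.cons p β : Fin 1 → Fin k) = (Fin.snoc α q : Fin 1 → Fin k)) ↔ p = q := by
      constructor
      · intro h
        have := congrFun h 0
        simpa [Fin.snoc] using this
      · intro h
        subst h
        funext i
        have hi : i = 0 := Fin.fin_one_eq_zero i
        subst hi
        simp [Fin.snoc]
    rw [if_congr h rfl rfl, List.ofFn_zero, List.prod_nil, Matrix.one_apply]
  | succ n ih =>
    have h : ((Fin.cons p β : Fin (n + 2) → Fin k) = (Fin.snoc α q : Fin (n + 2) → Fin k)) ↔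
        p = α 0 ∧ (Fin.cons (β 0) (fun i : Fin n => β i.succ) : Fin (n + 1) → Fin k) =
          (Fin.snoc (fun i : Fin n => α i.succ) q : Fin (n + 1) → Fin k) := by
      have e0 : (Fin.snoc α q : Fin (n + 2) → Fin k) 0 = α 0 := by
        exact Fin.snoc_castSucc (α := fun _ => Fin k) q α 0
      have e1 : ∀ j : Fin (n + 1), (Fin.snoc α q : Fin (n + 2) → Fin k) j.succ =
          (Fin.snoc (fun i : Fin n => α i.succ) q : Fin (n + 1) → Fin k) j := by
        intro j
        refine Fin.lastCases ?_ (fun j => ?_) j
        · rw [Fin.snoc_last, Fin.succ_last, Fin.snoc_last]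
        · rw [Fin.snoc_castSucc, Fin.succ_castSucc, Fin.snoc_castSucc]
      have e2 : (Fin.cons (β 0) (fun i : Fin n => β i.succ) : Fin (n + 1) → Fin k) = β :=
        Fin.cons_self_tail β
      constructor
      · intro h
        refine ⟨?_, ?_⟩
        · have := congrFun h 0
          rwa [Fin.cons_zero, e0] at this
        · rw [e2]
          funext j
          have := congrFun h j.succ
          rwa [Fin.cons_succ, e1] at this
      · rintro ⟨h1, h2⟩
        funext i
        refine Fin.cases ?_ (fun j => ?_) i
        · rw [Fin.cons_zero, e0, h1]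
        · rw [Fin.cons_succ, e1, ← h2, e2]
    rw [List.ofFn_succ, List.prod_cons, Matrix.mul_apply, Finset.sum_eq_single (β 0)]
    · rw [ih (fun i : Fin n => α i.succ) (fun i : Fin n => β i.succ) (β 0), if_congr h rfl rfl]
      by_cases h1 : p = α 0
      · subst h1
        simp [Matrix.single]
      · rw [Matrix.single_apply_of_ne _ _ _ _ _ (fun hh => h1 hh.1.symm)]
        rw [zero_mul, if_neg]
        exact fun hh => h1 hh.1
    · intro r _ hr
      rw [Matrix.single_apply_of_ne _ _ _ _ _ (fun hh => hr hh.2.symm), zero_mul]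
    · intro h; exact absurd (mem_univ _) h

/-- The integer family of the words. -/
def uw (k n : ℕ) (σ : Perm (Fin n)) (j : (Fin n → Fin k) × (Fin n → Fin k) × Fin k × Fin k) : ℤ :=
  if (Fin.cons j.2.2.1 (fun i => j.2.1 (σ i)) : Fin (n + 1) → Fin k) =
    (Fin.snoc (fun i => j.1 (σ i)) j.2.2.2 : Fin (n + 1) → Fin k) then 1 else 0

/-- The integer family of the words modulo the centre. -/
def zw (k n : ℕ) (i₀ : Fin k) (σ : Perm (Fin n))
    (j : (Fin n → Fin k) × (Fin n → Fin k) × Fin k × Fin k) : ℤ :=
  if j.2.2.1 = j.2.2.2 then uw k n σ j - uw k n σ (j.1, j.2.1, i₀, i₀) else uw k n σ j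

theorem uw_cast (K : Type*) [Field K] (k n : ℕ) (σ : Perm (Fin n))
    (j : (Fin n → Fin k) × (Fin n → Fin k) × Fin k × Fin k) :
    ((uw k n σ j : ℤ) : K) =
      (List.ofFn fun i => Matrix.single (j.1 (σ i)) (j.2.1 (σ i)) (1 : K)).prod
        j.2.2.1 j.2.2.2 := by
  rw [prod_units K n (fun i => j.1 (σ i)) (fun i => j.2.1 (σ i)), uw]
  split_ifs <;> simp

theorem finrank_span_comp_injective {K : Type*} [Field K] {M N : Type*} [AddCommGroup M]
    [Module K M] [AddCommGroup N] [Module K N] (f : M →ₗ[K] N) (hf : Injective f) {S : Type*}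
    (m : S → M) :
    finrank K (Submodule.span K (Set.range fun s => f (m s))) =
      finrank K (Submodule.span K (Set.range m)) := by
  have h : (Set.range fun s => f (m s)) = f '' Set.range m := by
    rw [← Set.range_comp]; rfl
  rw [h, ← Submodule.map_span]
  exact (LinearEquiv.finrank_eq (Submodule.equivMapOfInjective f hf _)).symm

/-- The span of a family of functions given by multilinear maps, in coordinates. -/
theorem finrank_multi {K : Type*} [Field K] {M N : Type*} [AddCommGroup M]
    [Module K M] [AddCommGroup N] [Module K N] {I L S : Type*} (b : Basis I K M) {n : ℕ}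
    (c : N →ₗ[K] (L → K)) (hc : Injective c)
    (m : S → MultilinearMap K (fun _ : Fin n => M) N) :
    finrank K (Submodule.span K (Set.range fun s => fun x : Fin n → M => m s x)) =
      finrank K (Submodule.span K (Set.range fun s => fun j : (Fin n → I) × L =>
        c (m s (fun i => b (j.1 i))) j.2)) := by
  let f : MultilinearMap K (fun _ : Fin n => M) N →ₗ[K] ((Fin n → M) → N) :=
    { toFun := fun g x => g x
      map_add' := fun _ _ => rfl
      map_smul' := fun _ _ => rfl }
  let h : MultilinearMap K (fun _ : Fin n => M) N →ₗ[K] ((Fin n → I) × L → K) :=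
    { toFun := fun g j => c (g (fun i => b (j.1 i))) j.2
      map_add' := fun g g' => by funext j; simp
      map_smul' := fun r g => by funext j; simp }
  have hf : Injective f := fun g g' hg => MultilinearMap.ext fun x => congrFun hg x
  have hh : Injective h := by
    intro g g' hg
    refine Module.Basis.ext_multilinear (fun _ => b) fun v => ?_
    apply hc
    funext l
    exact congrFun hg (v, l)
  exact (finrank_span_comp_injective f hf m).trans (finrank_span_comp_injective h hh m).symm

/-- The word attached to a permutation as a multilinear map. -/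
noncomputable def wordM (K : Type*) [Field K] (k n : ℕ) (σ : Perm (Fin n)) :
    MultilinearMap K (fun _ : Fin n => Matrix (Fin k) (Fin k) K) (Matrix (Fin k) (Fin k) K) :=
  (MultilinearMap.mkPiAlgebraFin K n (Matrix (Fin k) (Fin k) K)).domDomCongr σ

theorem wordM_apply (K : Type*) [Field K] (k n : ℕ) (σ : Perm (Fin n))
    (x : Fin n → Matrix (Fin k) (Fin k) K) :
    wordM K k n σ x = (List.ofFn fun i => x (σ i)).prod := by
  rw [wordM, MultilinearMap.domDomCongr_apply, MultilinearMap.mkPiAlgebraFin_apply]

theorem stdB (K : Type*) [Field K] (k : ℕ) (j : Fin k × Fin k) :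
    Matrix.stdBasis K (Fin k) (Fin k) j = Matrix.single j.1 j.2 (1 : K) := by
  obtain ⟨p, q⟩ := j
  exact Matrix.stdBasis_eq_single ..

theorem cod_eq (K : Type*) [Field K] (k n : ℕ) :
    finrank K (Submodule.span K (Set.range (fun σ : Perm (Fin n) =>
      fun x : Fin n → Matrix (Fin k) (Fin k) K => (List.ofFn (fun i => x (σ i))).prod))) =
    finrank K (Submodule.span K (Set.range (cst K (uw k n)))) := by
  let c : Matrix (Fin k) (Fin k) K →ₗ[K] (Fin k × Fin k → K) :=
    { toFun := fun A j => A j.1 j.2
      map_add' := fun _ _ => rfl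
      map_smul' := fun _ _ => rfl }
  have hc : Injective c := by
    intro A B h
    ext p q
    exact congrFun h (p, q)
  have h1 := finrank_multi (Matrix.stdBasis K (Fin k) (Fin k)) c hc (wordM K k n)
  have h2 : (fun σ : Perm (Fin n) =>
      fun x : Fin n → Matrix (Fin k) (Fin k) K => (List.ofFn (fun i => x (σ i))).prod) =
      fun σ => fun x => wordM K k n σ x := by
    funext σ x
    rw [wordM_apply]
  rw [h2, h1]
  -- reindex
  let e : ((Fin n → Fin k) × (Fin n → Fin k) × Fin k × Fin k → K) →ₗ[K]
      ((Fin n → Fin k × Fin k) × (Fin k × Fin k) → K) :=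
    LinearMap.funLeft K K (fun j => ((fun i => (j.1 i).1), (fun i => (j.1 i).2), j.2.1, j.2.2))
  have he : Injective e := by
    apply LinearMap.funLeft_injective_of_surjective
    rintro ⟨a, b, p, q⟩
    exact ⟨(fun i => (a i, b i), (p, q)), rfl⟩
  rw [← finrank_span_comp_injective e he]
  have h4 : (fun (s : Perm (Fin n)) (j : (Fin n → Fin k × Fin k) × (Fin k × Fin k)) =>
      c (wordM K k n s (fun i => Matrix.stdBasis K (Fin k) (Fin k) (j.1 i))) j.2) =
      fun s => e (cst K (uw k n) s) := by
    funext σ
    funext j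
    have h5 : ∀ A : Matrix (Fin k) (Fin k) K, c A j.2 = A j.2.1 j.2.2 := fun _ => rfl
    rw [h5, wordM_apply]
    change _ = ((uw k n σ _ : ℤ) : K)
    rw [uw_cast]
    simp only [stdB]
  rw [h4]

/-- Coordinates modulo the centre. -/
def zc (K : Type*) [Field K] {k : ℕ} (i₀ : Fin k) :
    Matrix (Fin k) (Fin k) K →ₗ[K] (Fin k × Fin k → K) where
  toFun A j := if j.1 = j.2 then A j.1 j.2 - A i₀ i₀ else A j.1 j.2
  map_add' A B := by
    funext j
    simp only [Matrix.add_apply, Pi.add_apply]
    split_ifs <;> ring
  map_smul' r A := by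
    funext j
    simp only [Matrix.smul_apply, Pi.smul_apply, smul_eq_mul, RingHom.id_apply]
    split_ifs <;> ring

theorem ker_zc (K : Type*) [Field K] {k : ℕ} (i₀ : Fin k) :
    LinearMap.ker (zc K i₀) =
      Subalgebra.toSubmodule (Subalgebra.center K (Matrix (Fin k) (Fin k) K)) := by
  ext A
  rw [LinearMap.mem_ker, Subalgebra.mem_toSubmodule, Algebra.IsCentral.mem_center_iff]
  constructor
  · intro h
    refine ⟨A i₀ i₀, ?_⟩
    ext p q
    rw [Matrix.algebraMap_matrix_apply]
    have h1 := congrFun h (p, q)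
    simp only [zc, LinearMap.coe_mk, AddHom.coe_mk, Pi.zero_apply] at h1
    split_ifs at h1 ⊢ with hpq
    · simpa [sub_eq_zero] using h1
    · exact h1
  · rintro ⟨a, rfl⟩
    funext j
    simp only [zc, LinearMap.coe_mk, AddHom.coe_mk, Pi.zero_apply]
    rw [Matrix.algebraMap_matrix_apply, Matrix.algebraMap_matrix_apply, if_pos rfl]
    split_ifs <;> simp

theorem ccod_eq (K : Type*) [Field K] (k n : ℕ) (i₀ : Fin k) :
    finrank K (Submodule.span K (Set.range (fun σ : Perm (Fin n) =>
      fun x : Fin n → Matrix (Fin k) (Fin k) K =>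
        Submodule.mkQ (Subalgebra.toSubmodule (Subalgebra.center K (Matrix (Fin k) (Fin k) K)))
          (List.ofFn (fun i => x (σ i))).prod))) =
    finrank K (Submodule.span K (Set.range (cst K (zw k n i₀)))) := by
  set Z := Subalgebra.toSubmodule (Subalgebra.center K (Matrix (Fin k) (Fin k) K)) with hZ
  let c : (Matrix (Fin k) (Fin k) K ⧸ Z) →ₗ[K] (Fin k × Fin k → K) :=
    Z.liftQ (zc K i₀) (le_of_eq (ker_zc K i₀).symm)
  have hc : Injective c := by
    rw [← LinearMap.ker_eq_bot]
    exact Submodule.ker_liftQ_eq_bot _ _ _ (le_of_eq (ker_zc K i₀))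
  have h1 := finrank_multi (Matrix.stdBasis K (Fin k) (Fin k)) c hc
    (fun σ => (Submodule.mkQ Z).compMultilinearMap (wordM K k n σ))
  have h2 : (fun σ : Perm (Fin n) =>
      fun x : Fin n → Matrix (Fin k) (Fin k) K =>
        Submodule.mkQ Z (List.ofFn (fun i => x (σ i))).prod) =
      fun σ => fun x => ((Submodule.mkQ Z).compMultilinearMap (wordM K k n σ)) x := by
    funext σ x
    rw [LinearMap.compMultilinearMap_apply, wordM_apply]
  rw [h2, h1]
  let e : ((Fin n → Fin k) × (Fin n → Fin k) × Fin k × Fin k → K) →ₗ[K]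
      ((Fin n → Fin k × Fin k) × (Fin k × Fin k) → K) :=
    LinearMap.funLeft K K (fun j => ((fun i => (j.1 i).1), (fun i => (j.1 i).2), j.2.1, j.2.2))
  have he : Injective e := by
    apply LinearMap.funLeft_injective_of_surjective
    rintro ⟨a, b, p, q⟩
    exact ⟨(fun i => (a i, b i), (p, q)), rfl⟩
  rw [← finrank_span_comp_injective e he]
  have h4 : (fun (s : Perm (Fin n)) (j : (Fin n → Fin k × Fin k) × (Fin k × Fin k)) =>
      c (((Submodule.mkQ Z).compMultilinearMap (wordM K k n s))
        (fun i => Matrix.stdBasis K (Fin k) (Fin k) (j.1 i))) j.2) =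
      fun s => e (cst K (zw k n i₀) s) := by
   funext σ
   funext j
   have h3 : (c (((Submodule.mkQ Z).compMultilinearMap (wordM K k n σ))
      (fun i => Matrix.stdBasis K (Fin k) (Fin k) (j.1 i)))) =
      zc K i₀ (wordM K k n σ (fun i => Matrix.stdBasis K (Fin k) (Fin k) (j.1 i))) := by
     rw [LinearMap.compMultilinearMap_apply]
     exact Submodule.liftQ_apply _ _ _
   rw [h3, wordM_apply]
   change _ = ((zw k n i₀ σ _ : ℤ) : K)
   have h5 : ∀ A : Matrix (Fin k) (Fin k) K, zc K i₀ A j.2 =
     if j.2.1 = j.2.2 then A j.2.1 j.2.2 - A i₀ i₀ else A j.2.1 j.2.2 := fun _ => rfl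
   rw [zw, h5]
   simp only [stdB]
   split_ifs with h
   · rw [Int.cast_sub, uw_cast, uw_cast]
   · rw [uw_cast]
  rw [h4]

end Pool.Agent.Y38.CC
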