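import Mathlib
import Pool.Agent.Y38.CC.FieldT
import Pool.Agent.Y38.CC.Cond

/-!
# Words of matrix units and matching functions
-/

set_option autoImplicit false
set_option linter.unusedSectionVars false

namespace Pool.Agent.Y38.CC

open Finset Function Equiv Module

/-- The index set of the coordinates. -/
abbrev JJ (k n : ℕ) := (Fin n → Fin k) × (Fin n → Fin k) × Fin k × Fin k

/-- The integer family of the matching functions. -/
def tv (k n : ℕ) (σ : Perm (Fin n)) (j : (Fin n → Fin k) × (Fin n → Fin k)) : ℤ :=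
  if ∀ i, j.2 i = j.1 (σ i) then 1 else 0

theorem tn_eq_rank (M : Type*) [Field M] [CharZero M] (k n : ℕ) : tn M k n =
      finrank M (Submodule.span M (Set.range (cst M (tv k n)))) := by
  let e : ((Fin n → Fin k) → (Fin n → Fin k) → M) →ₗ[M]
      ((Fin n → Fin k) × (Fin n → Fin k) → M) :=
    { toFun := fun F j => F j.1 j.2
      map_add' := fun _ _ => rfl
      map_smul' := fun _ _ => rfl }
  have he : Injective e := by
    intro F G h
    funext a b
    exact congrFun h (a, b)
  have h1 : TT M k (univ : Finset (Fin n)) univ =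
      Submodule.span M (Set.range fun σ : Perm (Fin n) => mt M univ σ) := by
    rw [TT]
    congr 1
    ext F
    constructor
    · rintro ⟨β, _, rfl⟩; exact ⟨β, rfl⟩
    · rintro ⟨β, rfl⟩; exact ⟨β, Finset.image_univ_equiv β, rfl⟩
  rw [tn, h1, ← finrank_span_comp_injective e he]
  have h2 : (fun s : Perm (Fin n) => e (mt M univ s)) = cst M (tv k n) := by
    funext σ j
    change mt M univ σ j.1 j.2 = ((tv k n σ j : ℤ) : M)
    rw [mt, Finset.prod_ite_zero, tv]
    simp only [mem_univ, forall_true_left, Finset.prod_const_one]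
    split_ifs <;> simp
  rw [h2]

/-- The trace codimension does not depend on the field. -/
theorem tn_field (K L : Type*) [Field K] [CharZero K] [Field L] [CharZero L] (k n : ℕ) :
    tn K k n = tn L k n := by
  rw [tn_eq_rank K, tn_eq_rank L]
  exact rank_indep K L (tv k n)

variable {k n : ℕ}

/-- The span of the words. -/
def Wn (k n : ℕ) : Submodule ℝ (JJ k n → ℝ) := Submodule.span ℝ (Set.range (cst ℝ (uw k n)))

/-- From functions with one extra label to matrix valued functions. -/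
def toJ (k n : ℕ) : ((Fin n ⊕ Unit → Fin k) → (Fin n ⊕ Unit → Fin k) → ℝ) →ₗ[ℝ]
    (JJ k n → ℝ) where
  toFun φ := fun j => φ (Sum.elim j.1 fun _ => j.2.2.2) (Sum.elim j.2.1 fun _ => j.2.2.1)
  map_add' _ _ := rfl
  map_smul' _ _ := rfl

theorem toJ_injective : Injective (toJ k n) := by
  intro φ φ' h
  funext a b
  have := congrFun h (fun i => a (Sum.inl i), fun i => b (Sum.inl i), b (Sum.inr ()), a (Sum.inr ()))
  change φ (Sum.elim (a ∘ Sum.inl) (a ∘ Sum.inr)) (Sum.elim (b ∘ Sum.inl) (b ∘ Sum.inr)) =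
    φ' (Sum.elim (a ∘ Sum.inl) (a ∘ Sum.inr)) (Sum.elim (b ∘ Sum.inl) (b ∘ Sum.inr)) at this
  rwa [Sum.elim_comp_inl_inr, Sum.elim_comp_inl_inr] at this

/-- The bijection of positions with labels: the extra label at the front. -/
def thl (σ : Perm (Fin n)) : Fin (n + 1) ≃ Fin n ⊕ Unit :=
  ((finSuccEquiv n).trans (Equiv.optionEquivSumPUnit (Fin n))).trans (Equiv.sumCongr σ (Equiv.refl _))

/-- The bijection of positions with labels: the extra label at the end. -/
def thu (σ : Perm (Fin n)) : Fin (n + 1) ≃ Fin n ⊕ Unit :=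
  (finSuccEquivLast.trans (Equiv.optionEquivSumPUnit (Fin n))).trans
    (Equiv.sumCongr σ (Equiv.refl _))

theorem comp_thl (σ : Perm (Fin n)) (b : Fin n → Fin k) (p : Fin k) (j : Fin (n + 1)) :
    (Sum.elim b fun _ => p : Fin n ⊕ Unit → Fin k) (thl σ j) =
      (Fin.cons p (fun i => b (σ i)) : Fin (n + 1) → Fin k) j := by
  refine Fin.cases ?_ (fun i => ?_) j
  · simp [thl]
  · simp [thl]

theorem comp_thu (σ : Perm (Fin n)) (a : Fin n → Fin k) (q : Fin k) (j : Fin (n + 1)) :
    (Sum.elim a fun _ => q : Fin n ⊕ Unit → Fin k) (thu σ j) =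
      (Fin.snoc (fun i => a (σ i)) q : Fin (n + 1) → Fin k) j := by
  refine Fin.lastCases ?_ (fun i => ?_) j
  · simp [thu]
  · simp [thu]

theorem uw_eq_toJ (σ : Perm (Fin n)) :
    cst ℝ (uw k n) σ = toJ k n (mt ℝ univ ((thl σ).symm.trans (thu σ))) := by
  funext j
  change ((uw k n σ j : ℤ) : ℝ) = mt ℝ univ ((thl σ).symm.trans (thu σ))
    (Sum.elim j.1 fun _ => j.2.2.2) (Sum.elim j.2.1 fun _ => j.2.2.1)
  rw [mt, ← (thl σ).prod_comp, Finset.prod_ite_zero, uw]
  have h : (∀ i ∈ (univ : Finset (Fin (n + 1))),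
      (Sum.elim j.2.1 fun _ => j.2.2.1 : Fin n ⊕ Unit → Fin k) (thl σ i) =
      (Sum.elim j.1 fun _ => j.2.2.2 : Fin n ⊕ Unit → Fin k)
        (((thl σ).symm.trans (thu σ)) (thl σ i))) ↔
      (Fin.cons j.2.2.1 (fun i => j.2.1 (σ i)) : Fin (n + 1) → Fin k) =
        (Fin.snoc (fun i => j.1 (σ i)) j.2.2.2 : Fin (n + 1) → Fin k) := by
    rw [funext_iff]
    constructor
    · intro h i
      have := h i (mem_univ i)
      rwa [comp_thl, Equiv.trans_apply, Equiv.symm_apply_apply, comp_thu] at this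
    · intro h i _
      rw [comp_thl, Equiv.trans_apply, Equiv.symm_apply_apply, comp_thu]
      exact h i
  rw [Finset.prod_const_one]
  by_cases hh : (Fin.cons j.2.2.1 (fun i => j.2.1 (σ i)) : Fin (n + 1) → Fin k) =
        (Fin.snoc (fun i => j.1 (σ i)) j.2.2.2 : Fin (n + 1) → Fin k)
  · rw [if_pos hh, if_pos (h.2 hh), Int.cast_one]
  · rw [if_neg hh, if_neg (fun h' => hh (h.1 h')), Int.cast_zero]

theorem Wn_le : Wn k n ≤ (TT ℝ k (univ : Finset (Fin n ⊕ Unit)) univ).map (toJ k n) := by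
  rw [Wn, Submodule.span_le]
  rintro _ ⟨σ, rfl⟩
  rw [uw_eq_toJ]
  exact Submodule.mem_map_of_mem (Submodule.subset_span
    ⟨_, Finset.image_univ_equiv ((thl σ).symm.trans (thu σ)), rfl⟩)

/-- The codimension. -/
noncomputable def cn (k n : ℕ) : ℕ := finrank ℝ (Wn k n)

theorem cn_le [NeZero k] : cn k n ≤ tn ℝ k (n + 1) := by
  have h := Submodule.finrank_mono (Wn_le (k := k) (n := n))
  refine h.trans ?_
  rw [← finrank_TT (K := ℝ) (k := k) (ι := Fin n ⊕ Unit) (n := n + 1) (U := univ) (L := univ)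
    (by simp) (by simp)]
  exact (Submodule.finrank_map_le _ _)

/-- From scalar functions to matrix valued functions. -/
def sc (k n : ℕ) : ((Fin n ⊕ Empty → Fin k) → (Fin n ⊕ Empty → Fin k) → ℝ) →ₗ[ℝ]
    (JJ k n → ℝ) where
  toFun φ := fun j => if j.2.2.1 = j.2.2.2 then
    φ (Sum.elim j.1 Empty.elim) (Sum.elim j.2.1 Empty.elim) else 0
  map_add' φ ψ := by
    funext j
    simp only [Pi.add_apply]
    split_ifs <;> simp
  map_smul' c φ := by
    funext j
    simp only [Pi.smul_apply, smul_eq_mul, RingHom.id_apply]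
    split_ifs <;> simp

/-- Central functions in the span of the words. -/
def Zn (k n : ℕ) : Submodule ℝ ((Fin n ⊕ Empty → Fin k) → (Fin n ⊕ Empty → Fin k) → ℝ) :=
  (Wn k n).comap (sc k n)

/-- The dimension of the space of central functions. -/
noncomputable def dn (k n : ℕ) : ℕ := finrank ℝ (Zn k n)

theorem elim_restrict {α : Type*} (a : Fin n ⊕ Empty → α) :
    (Sum.elim (fun i => a (Sum.inl i)) Empty.elim : Fin n ⊕ Empty → α) = a := by
  funext i
  rcases i with i | i
  · rfl
  · exact i.elim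

theorem sc_injective (i₀ : Fin k) : Injective (sc k n) := by
  intro φ φ' h
  funext a b
  have := congrFun h (fun i => a (Sum.inl i), fun i => b (Sum.inl i), i₀, i₀)
  change (if i₀ = i₀ then φ (Sum.elim (fun i => a (Sum.inl i)) Empty.elim)
      (Sum.elim (fun i => b (Sum.inl i)) Empty.elim) else 0) =
    (if i₀ = i₀ then φ' (Sum.elim (fun i => a (Sum.inl i)) Empty.elim)
      (Sum.elim (fun i => b (Sum.inl i)) Empty.elim) else 0) at this
  rwa [if_pos rfl, if_pos rfl, elim_restrict, elim_restrict] at this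

/-- The trace. -/
def trJ (k n : ℕ) : (JJ k n → ℝ) →ₗ[ℝ]
    ((Fin n ⊕ Empty → Fin k) → (Fin n ⊕ Empty → Fin k) → ℝ) where
  toFun f := fun a b => ∑ p, f (fun i => a (Sum.inl i), fun i => b (Sum.inl i), p, p)
  map_add' f f' := by
    funext a b
    simp [Finset.sum_add_distrib]
  map_smul' c f := by
    funext a b
    simp [Finset.mul_sum]

theorem trJ_sc (φ : (Fin n ⊕ Empty → Fin k) → (Fin n ⊕ Empty → Fin k) → ℝ) :
    trJ k n (sc k n φ) = (k : ℝ) • φ := by
  funext a b
  change ∑ p : Fin k, (if p = p then φ (Sum.elim (fun i => a (Sum.inl i)) Empty.elim)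
      (Sum.elim (fun i => b (Sum.inl i)) Empty.elim) else 0) = (k : ℝ) * φ a b
  rw [elim_restrict, elim_restrict]
  simp

theorem trJ_mem [NeZero k] {f : JJ k n → ℝ} (hf : f ∈ Wn k n) :
    trJ k n f ∈ TT ℝ k (univ : Finset (Fin n ⊕ Empty)) univ := by
  rw [Wn] at hf
  induction hf using Submodule.span_induction with
  | mem f hf =>
    obtain ⟨σ, rfl⟩ := hf
    rw [uw_eq_toJ]
    set β := (thl σ).symm.trans (thu σ) with hβ
    have h1 : mt (k := k) ℝ univ β ∈ TT ℝ k (univ : Finset (Fin n ⊕ Unit)) univ :=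
      Submodule.subset_span ⟨β, Finset.image_univ_equiv β, rfl⟩
    have h2 := ctr_mem (mem_univ (Sum.inr () : Fin n ⊕ Unit)) (mem_univ (Sum.inr ())) h1
    let e : Fin n ⊕ Empty → Fin n ⊕ Unit := Sum.elim Sum.inl Empty.elim
    have he : Injective e := by
      rintro (i | i) (j | j) h
      · exact congrArg Sum.inl (Sum.inl_injective h)
      · exact j.elim
      · exact i.elim
      · exact i.elim
    have h3 : (univ : Finset (Fin n ⊕ Unit)).erase (Sum.inr ()) = univ.image e := by
      ext i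
      simp only [Finset.mem_erase, mem_univ, and_true, Finset.mem_image, true_and]
      rcases i with i | i
      · constructor
        · intro _
          exact ⟨Sum.inl i, rfl⟩
        · intro _ h
          exact Sum.inl_ne_inr h
      · constructor
        · intro h
          exact absurd rfl h
        · rintro ⟨j | j, hj⟩
          · exact absurd hj Sum.inl_ne_inr
          · exact j.elim
    rw [h3, ← map_pull he he, Submodule.mem_map] at h2
    obtain ⟨ψ, hψ, hψ2⟩ := h2
    have h4 : trJ k n (toJ k n (mt ℝ univ β)) = ψ := by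
      funext a b
      have i₀ : Fin k := 0
      have h5 := congrFun (congrFun hψ2 (Sum.elim (fun i => a (Sum.inl i)) fun _ => i₀))
        (Sum.elim (fun i => b (Sum.inl i)) fun _ => i₀)
      have e1 : ∀ a : Fin n ⊕ Empty → Fin k,
          (Sum.elim (fun i => a (Sum.inl i)) fun _ => i₀ : Fin n ⊕ Unit → Fin k) ∘ e = a := by
        intro a
        funext i
        rcases i with i | i
        · rfl
        · exact i.elim
      change ψ (_ ∘ e) (_ ∘ e) = ctr _ _ _ _ _ at h5
      rw [e1, e1] at h5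
      change ∑ p, mt ℝ univ β (Sum.elim (fun i => a (Sum.inl i)) fun _ => p)
        (Sum.elim (fun i => b (Sum.inl i)) fun _ => p) = ψ a b
      rw [h5, ctr]
      refine Finset.sum_congr rfl fun p _ => ?_
      have e2 : ∀ a : Fin n ⊕ Empty → Fin k,
          update (Sum.elim (fun i => a (Sum.inl i)) fun _ => i₀ : Fin n ⊕ Unit → Fin k)
            (Sum.inr ()) p = (Sum.elim (fun i => a (Sum.inl i)) fun _ => p) := by
        intro a
        funext i
        rcases i with i | i
        · rw [update_of_ne Sum.inl_ne_inr]; rfl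
        · rw [update_self]; rfl
      rw [e2, e2]
    rw [h4]
    exact hψ
  | zero => rw [map_zero]; exact Submodule.zero_mem _
  | add f f' _ _ h h' => rw [map_add]; exact Submodule.add_mem _ h h'
  | smul c f _ h => rw [map_smul]; exact Submodule.smul_mem _ c h

theorem Zn_le [NeZero k] : Zn k n ≤ TT ℝ k (univ : Finset (Fin n ⊕ Empty)) univ := by
  intro φ hφ
  have h1 := trJ_mem (Submodule.mem_comap.1 hφ)
  rw [trJ_sc] at h1
  exact (Submodule.smul_mem_iff _ (Nat.cast_ne_zero.2 (NeZero.ne k))).1 h1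

theorem dn_le [NeZero k] : dn k n ≤ tn ℝ k n := by
  have h := Submodule.finrank_mono (Zn_le (k := k) (n := n))
  rwa [finrank_TT (K := ℝ) (k := k) (ι := Fin n ⊕ Empty) (n := n) (U := univ) (L := univ)
    (by simp) (by simp)] at h

/-- Reduction modulo scalar functions. -/
def kap (k n : ℕ) (i₀ : Fin k) : (JJ k n → ℝ) →ₗ[ℝ] (JJ k n → ℝ) where
  toFun f := fun j => if j.2.2.1 = j.2.2.2 then f j - f (j.1, j.2.1, i₀, i₀) else f j
  map_add' f f' := by
    funext j
    simp only [Pi.add_apply]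
    split_ifs <;> ring
  map_smul' c f := by
    funext j
    simp only [Pi.smul_apply, smul_eq_mul, RingHom.id_apply]
    split_ifs <;> ring

theorem kap_cst (i₀ : Fin k) (σ : Perm (Fin n)) :
    kap k n i₀ (cst ℝ (uw k n) σ) = cst ℝ (zw k n i₀) σ := by
  funext j
  change (if j.2.2.1 = j.2.2.2 then ((uw k n σ j : ℤ) : ℝ) -
    ((uw k n σ (j.1, j.2.1, i₀, i₀) : ℤ) : ℝ) else ((uw k n σ j : ℤ) : ℝ)) =
    ((zw k n i₀ σ j : ℤ) : ℝ)
  rw [zw]
  split_ifs <;> simp

theorem mem_ker_kap (i₀ : Fin k) (f : JJ k n → ℝ) :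
    f ∈ LinearMap.ker (kap k n i₀) ↔ ∃ φ, sc k n φ = f := by
  rw [LinearMap.mem_ker]
  constructor
  · intro h
    refine ⟨fun a b => f (fun i => a (Sum.inl i), fun i => b (Sum.inl i), i₀, i₀), ?_⟩
    funext j
    have h1 : (if j.2.2.1 = j.2.2.2 then f j - f (j.1, j.2.1, i₀, i₀) else f j) = 0 := congrFun h j
    change (if j.2.2.1 = j.2.2.2 then f (j.1, j.2.1, i₀, i₀) else 0) = f j
    split_ifs at h1 ⊢ with hj
    · exact (sub_eq_zero.1 h1).symm
    · exact h1.symm
  · rintro ⟨φ, rfl⟩
    funext j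
    change (if j.2.2.1 = j.2.2.2 then (if j.2.2.1 = j.2.2.2 then
      φ (Sum.elim j.1 Empty.elim) (Sum.elim j.2.1 Empty.elim) else 0) - (if i₀ = i₀ then
      φ (Sum.elim j.1 Empty.elim) (Sum.elim j.2.1 Empty.elim) else 0) else
      (if j.2.2.1 = j.2.2.2 then
      φ (Sum.elim j.1 Empty.elim) (Sum.elim j.2.1 Empty.elim) else 0)) = 0
    rw [if_pos (rfl : i₀ = i₀)]
    split_ifs <;> simp

theorem zn_add (i₀ : Fin k) :
    finrank ℝ (Submodule.span ℝ (Set.range (cst ℝ (zw k n i₀)))) + dn k n = cn k n := by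
  have h1 : Submodule.span ℝ (Set.range (cst ℝ (zw k n i₀))) = (Wn k n).map (kap k n i₀) := by
    rw [Wn, Submodule.map_span, ← Set.range_comp]
    congr 2
    funext σ
    exact (kap_cst i₀ σ).symm
  have h2 := LinearMap.finrank_range_add_finrank_ker ((kap k n i₀).domRestrict (Wn k n))
  have h3 : LinearMap.range ((kap k n i₀).domRestrict (Wn k n)) = (Wn k n).map (kap k n i₀) := by
    rw [LinearMap.range_domRestrict]
  have h4 : finrank ℝ (LinearMap.ker ((kap k n i₀).domRestrict (Wn k n))) = dn k n := by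
    have h5 : (LinearMap.ker ((kap k n i₀).domRestrict (Wn k n))).map (Wn k n).subtype =
        (Zn k n).map (sc k n) := by
      ext f
      constructor
      · rintro ⟨⟨f, hf⟩, h, rfl⟩
        have h6 : f ∈ LinearMap.ker (kap k n i₀) := h
        obtain ⟨φ, rfl⟩ := (mem_ker_kap i₀ f).1 h6
        exact ⟨φ, hf, rfl⟩
      · rintro ⟨φ, hφ, rfl⟩
        exact ⟨⟨sc k n φ, hφ⟩, (mem_ker_kap i₀ _).2 ⟨φ, rfl⟩, rfl⟩
    have h6 : finrank ℝ ((LinearMap.ker ((kap k n i₀).domRestrict (Wn k n))).map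
        (Wn k n).subtype) = finrank ℝ (LinearMap.ker ((kap k n i₀).domRestrict (Wn k n))) :=
      (LinearEquiv.finrank_eq (Submodule.equivMapOfInjective _ (Wn k n).injective_subtype _)).symm
    have h7 : finrank ℝ ((Zn k n).map (sc k n)) = finrank ℝ (Zn k n) :=
      (LinearEquiv.finrank_eq (Submodule.equivMapOfInjective _ (sc_injective i₀) _)).symm
    rw [← h6, h5, h7, dn]
  rw [h3, h4, ← h1] at h2
  exact h2

end Pool.Agent.Y38.CC
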