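import Mathlib
import Pool.Agent.Y38.CC.Link
import Pool.Agent.Y117.CC.Cor2

/-!
# The conductor in coordinates
-/

set_option autoImplicit false
set_option linter.unusedSectionVars false

namespace Pool.Agent.Y38.CC

open Finset Function Equiv Module
open Pool.Agent.Y117.CC

variable {k n m : ℕ}

theorem WW_to_Wn {F : (Fin n → Fin k) → (Fin n → Fin k) → Fin k → Fin k → ℝ}
    (hF : F ∈ WW ℝ k n) : (fun j : JJ k n => F j.1 j.2.1 j.2.2.1 j.2.2.2) ∈ Wn k n := by
  rw [WW] at hF
  induction hF using Submodule.span_induction with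
  | mem F hF =>
    obtain ⟨s, rfl⟩ := hF
    refine Submodule.subset_span ⟨s, ?_⟩
    funext j
    exact uw_cast ℝ k n s j
  | zero => exact Submodule.zero_mem _
  | add F G _ _ hF hG => exact Submodule.add_mem _ hF hG
  | smul c F _ hF => exact Submodule.smul_mem _ c hF

theorem glue_one (ε : Fin (m + 1) ≃ Fin k × Fin k) (B : Fin (4 * m + 3 + 1) → Fin n)
    (hB : Injective B) (β : Perm (Fin n ⊕ Unit)) (hβ : ∀ j, β (Sum.inl (B j)) = Sum.inl (B j)) :
    (fun a b => gg ℝ k m (fun j => a (Sum.inl (B j))) (fun j => b (Sum.inl (B j))) *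
      mt ℝ (univ \ univ.image (fun j => (Sum.inl (B j) : Fin n ⊕ Unit))) β a b) ∈
      (Wn k n).comap (toJ k n) := by
  classical
  let E : Fin (n + 1) ≃ Fin n ⊕ Unit := thu 1
  have hE : ∀ i : Fin n, E i.castSucc = Sum.inl i := by
    intro i; simp [E, thu]
  let β' : Perm (Fin (n + 1)) := (E.trans β).trans E.symm
  have hβ' : ∀ j, β' (B j).castSucc = (B j).castSucc := by
    intro j
    change E.symm (β (E (B j).castSucc)) = _
    rw [hE, hβ, ← hE, Equiv.symm_apply_apply]
  have h := WW_to_Wn (cor_ii (K := ℝ) ε B hB β' hβ')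
  rw [Submodule.mem_comap]
  refine Eq.mp ?_ h
  congr 1
  funext j
  change _ = gg ℝ k m _ _ * mt ℝ _ β (Sum.elim j.1 fun _ => j.2.2.2)
    (Sum.elim j.2.1 fun _ => j.2.2.1)
  simp only [Sum.elim_inl]
  congr 1
  rw [mt]
  refine Finset.prod_equiv E ?_ ?_
  · intro i
    simp only [Finset.mem_sdiff, mem_univ, true_and, Finset.mem_image, not_exists]
    constructor
    · intro hi j hj
      exact hi j (E.injective (by rw [hE, hj]))
    · intro hi j hj
      exact hi j (by rw [← hj, hE])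
  · intro i _
    have e1 := comp_thu (k := k) (1 : Perm (Fin n)) j.2.1 j.2.2.1 i
    have e2 := comp_thu (k := k) (1 : Perm (Fin n)) j.1 j.2.2.2 (β' i)
    simp only [Perm.coe_one, id_eq] at e1 e2
    rw [← e1, ← e2]
    have e3 : thu 1 (β' i) = β (E i) := by
      change E (E.symm (β (E i))) = _
      rw [Equiv.apply_symm_apply]
    rw [e3]

theorem glue_zero (ε : Fin (m + 1) ≃ Fin k × Fin k) (B : Fin (4 * m + 3 + 1) → Fin n)
    (hB : Injective B) (β : Perm (Fin n ⊕ Empty)) (hβ : ∀ j, β (Sum.inl (B j)) = Sum.inl (B j)) :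
    (fun a b => gg ℝ k m (fun j => a (Sum.inl (B j))) (fun j => b (Sum.inl (B j))) *
      mt ℝ (univ \ univ.image (fun j => (Sum.inl (B j) : Fin n ⊕ Empty))) β a b) ∈ Zn k n := by
  classical
  let E : Fin n ≃ Fin n ⊕ Empty := (Equiv.sumEmpty (Fin n) Empty).symm
  have hE : ∀ i : Fin n, E i = Sum.inl i := fun i => rfl
  let β' : Perm (Fin n) := (E.trans β).trans E.symm
  have hβ' : ∀ j, β' (B j) = (B j) := by
    intro j
    change E.symm (β (E (B j))) = _
    rw [hE, hβ, ← hE, Equiv.symm_apply_apply]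
  have h := WW_to_Wn (cor_i (K := ℝ) ε B hB β' hβ')
  rw [Zn, Submodule.mem_comap]
  refine Eq.mp ?_ h
  congr 1
  funext j
  change _ = (if j.2.2.1 = j.2.2.2 then gg ℝ k m _ _ * mt ℝ _ β (Sum.elim j.1 Empty.elim)
    (Sum.elim j.2.1 Empty.elim) else 0)
  simp only [Sum.elim_inl]
  rw [Matrix.one_apply, mul_ite, mul_one, mul_zero]
  have h1 : (∏ i ∈ univ \ univ.image B, if j.2.1 i = j.1 (β' i) then (1 : ℝ) else 0) =
      mt ℝ (univ \ univ.image (fun j => (Sum.inl (B j) : Fin n ⊕ Empty))) β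
        (Sum.elim j.1 Empty.elim) (Sum.elim j.2.1 Empty.elim) := by
    rw [mt]
    refine Finset.prod_equiv E ?_ ?_
    · intro i
      simp only [Finset.mem_sdiff, mem_univ, true_and, Finset.mem_image, not_exists]
      constructor
      · intro hi j hj
        exact hi j (E.injective (by rw [hE, hj]))
      · intro hi j hj
        exact hi j (by rw [← hj, hE])
    · intro i _
      have e3 : E (β' i) = β (E i) := by
        change E (E.symm (β (E i))) = _
        rw [Equiv.apply_symm_apply]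
      rw [← e3]
      rfl
  rw [h1]

/-- Lower bounds for the codimensions. -/
theorem lower_bounds (hk : 2 ≤ k) : ∃ M : ℕ, ∀ n,
    tn ℝ k (n + 1) ≤ cn k n + ((n + 1) ^ M * (k ^ 2 - 1) ^ n) * k ^ 2 ∧
    tn ℝ k n ≤ dn k n + (n + 1) ^ M * (k ^ 2 - 1) ^ n := by
  have : NeZero k := ⟨by omega⟩
  obtain ⟨m, hm⟩ : ∃ m, m + 1 = k * k := ⟨k * k - 1, by
    have : 1 ≤ k * k := Nat.mul_pos (by omega) (by omega)
    omega⟩
  let ε : Fin (m + 1) ≃ Fin k × Fin k := (finCongr hm).trans finProdFinEquiv.symm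
  have hg0 : gg ℝ k m ≠ 0 := by
    obtain ⟨a, b, hab⟩ := gg_ne (K := ℝ) ε
    intro h
    exact hab (congrFun (congrFun h a) b)
  have hgT : gg ℝ k m ∈ TT ℝ k (univ : Finset (Fin (4 * m + 3 + 1))) univ := by
    refine Submodule.span_mono ?_ (gg_span (K := ℝ) ε)
    rintro _ ⟨γ, rfl⟩
    exact ⟨γ, Finset.image_univ_equiv γ, rfl⟩
  refine ⟨4 * m + 3 + 1, fun n => ⟨?_, ?_⟩⟩
  · have h := cond_bound (E := Unit) (n := n) hk (gg ℝ k m) hg0 hgT ((Wn k n).comap (toJ k n))
      (fun B hB β hβ => glue_one ε B hB β hβ)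
    rw [finrank_TT (K := ℝ) (k := k) (ι := Fin n ⊕ Unit) (n := n + 1) (U := univ) (L := univ)
      (by simp) (by simp)] at h
    refine h.trans (add_le_add ?_ (le_of_eq ?_))
    · exact LinearMap.finrank_le_finrank_of_injective
        (f := (toJ k n).restrict (p := (Wn k n).comap (toJ k n)) (q := Wn k n) fun _ h => h)
        (fun x y hxy => Subtype.ext (toJ_injective (congrArg Subtype.val hxy)))
    · simp
  · have h := cond_bound (E := Empty) (n := n) hk (gg ℝ k m) hg0 hgT (Zn k n)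
      (fun B hB β hβ => glue_zero ε B hB β hβ)
    rw [finrank_TT (K := ℝ) (k := k) (ι := Fin n ⊕ Empty) (n := n) (U := univ) (L := univ)
      (by simp) (by simp)] at h
    refine h.trans (le_of_eq ?_)
    rw [dn]
    simp

end Pool.Agent.Y38.CC
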