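import Mathlib
import Pool.Agent.Y38.CC.Relabel
import Pool.Agent.Y38.CC.IntRank

/-!
# A lower bound for the trace codimensions
-/

set_option autoImplicit false
set_option linter.unusedSectionVars false

namespace Pool.Agent.Y38.CC

open Finset Function Equiv Module

theorem gram_bound {E : Type*} [NormedAddCommGroup E] [InnerProductSpace ℝ E]
    [FiniteDimensional ℝ E] {S : Type*} [Fintype S] (v : S → E) :
    (∑ σ, inner ℝ (v σ) (v σ)) ^ 2 ≤
      (finrank ℝ (Submodule.span ℝ (Set.range v)) : ℝ) * ∑ σ, ∑ τ, (inner ℝ (v σ) (v τ)) ^ 2 := by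
  classical
  set T := Submodule.span ℝ (Set.range v) with hT
  let b := stdOrthonormalBasis ℝ T
  let w : S → T := fun σ => ⟨v σ, Submodule.subset_span ⟨σ, rfl⟩⟩
  let c : Fin (finrank ℝ T) → S → ℝ := fun j σ => inner ℝ (b j) (w σ)
  have hin : ∀ σ τ, inner ℝ (v σ) (v τ) = ∑ j, c j σ * c j τ := by
    intro σ τ
    have h1 : inner ℝ (v σ) (v τ) = inner ℝ (w σ) (w τ) := rfl
    rw [h1, ← b.sum_inner_mul_inner]
    refine Finset.sum_congr rfl fun j _ => ?_
    rw [real_inner_comm]
  have h1 : ∑ σ, inner ℝ (v σ) (v σ) = ∑ j, ∑ σ, c j σ ^ 2 := by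
    rw [Finset.sum_comm]
    refine Finset.sum_congr rfl fun σ _ => ?_
    rw [hin]
    exact Finset.sum_congr rfl fun j _ => by ring
  have h2 : ∑ σ, ∑ τ, (inner ℝ (v σ) (v τ)) ^ 2 = ∑ j, ∑ l, (∑ σ, c j σ * c l σ) ^ 2 := by
    have e1 : ∀ σ τ, (inner ℝ (v σ) (v τ)) ^ 2 = ∑ j, ∑ l, (c j σ * c l σ) * (c j τ * c l τ) := by
      intro σ τ
      rw [hin, sq, Finset.sum_mul_sum]
      exact Finset.sum_congr rfl fun j _ => Finset.sum_congr rfl fun l _ => by ring
    have e2 : ∀ j l, (∑ σ, c j σ * c l σ) ^ 2 = ∑ σ, ∑ τ, (c j σ * c l σ) * (c j τ * c l τ) := by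
      intro j l
      rw [sq, Finset.sum_mul_sum]
    simp only [e1, e2]
    calc ∑ σ, ∑ τ, ∑ j, ∑ l, (c j σ * c l σ) * (c j τ * c l τ)
        = ∑ σ, ∑ j, ∑ τ, ∑ l, (c j σ * c l σ) * (c j τ * c l τ) :=
          Finset.sum_congr rfl fun σ _ => Finset.sum_comm
      _ = ∑ j, ∑ σ, ∑ τ, ∑ l, (c j σ * c l σ) * (c j τ * c l τ) := Finset.sum_comm
      _ = ∑ j, ∑ σ, ∑ l, ∑ τ, (c j σ * c l σ) * (c j τ * c l τ) :=
          Finset.sum_congr rfl fun j _ => Finset.sum_congr rfl fun σ _ => Finset.sum_comm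
      _ = ∑ j, ∑ l, ∑ σ, ∑ τ, (c j σ * c l σ) * (c j τ * c l τ) :=
          Finset.sum_congr rfl fun j _ => Finset.sum_comm
  rw [h1, h2]
  have h3 : ∑ j, (∑ σ, c j σ ^ 2) ^ 2 ≤ ∑ j, ∑ l, (∑ σ, c j σ * c l σ) ^ 2 := by
    refine Finset.sum_le_sum fun j _ => ?_
    have : (∑ σ, c j σ ^ 2) ^ 2 = (∑ σ, c j σ * c j σ) ^ 2 := by
      congr 1
      exact Finset.sum_congr rfl fun σ _ => by ring
    rw [this]
    exact Finset.single_le_sum (f := fun l => (∑ σ, c j σ * c l σ) ^ 2)
      (fun l _ => sq_nonneg _) (mem_univ j)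
  have h4 := sq_sum_le_card_mul_sum_sq (s := (univ : Finset (Fin (finrank ℝ T))))
    (f := fun j => ∑ σ, c j σ ^ 2)
  rw [Finset.card_univ, Fintype.card_fin] at h4
  exact h4.trans (mul_le_mul_of_nonneg_left h3 (Nat.cast_nonneg _))

/-- The number of orbits of the symmetric group on words. -/
theorem exists_perm_of_counts {n : ℕ} {Q : Type*} [DecidableEq Q] (c d : Fin n → Q)
    (h : ∀ q, (univ.filter fun i => c i = q).card = (univ.filter fun i => d i = q).card) :
    ∃ π : Perm (Fin n), c ∘ π = d := by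
  classical
  have e0 : ∀ q, Nonempty ({i // d i = q} ≃ {i // c i = q}) := by
    intro q
    refine ⟨Fintype.equivOfCardEq ?_⟩
    rw [Fintype.card_subtype, Fintype.card_subtype, h q]
  let e : ∀ q, {i // d i = q} ≃ {i // c i = q} := fun q => (e0 q).some
  let E : Fin n ≃ Fin n :=
    (Equiv.sigmaFiberEquiv d).symm.trans ((Equiv.sigmaCongrRight e).trans (Equiv.sigmaFiberEquiv c))
  refine ⟨E, ?_⟩
  funext i
  change c (((e (d i)) ⟨i, rfl⟩ : {j // c j = d i}) : Fin n) = d i
  exact ((e (d i)) ⟨i, rfl⟩).2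

theorem sum_fix_le {n : ℕ} {Q : Type*} [Fintype Q] [DecidableEq Q] :
    ∑ π : Perm (Fin n), (univ.filter fun c : Fin n → Q => c ∘ π = c).card ≤
      (n + 1) ^ Fintype.card Q * n.factorial := by
  classical
  -- double counting: sum over words of the size of the stabiliser
  have h1 : ∑ π : Perm (Fin n), (univ.filter fun c : Fin n → Q => c ∘ π = c).card =
      ∑ c : Fin n → Q, (univ.filter fun π : Perm (Fin n) => c ∘ π = c).card := by
    simp only [Finset.card_filter]
    rw [Finset.sum_comm]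
  rw [h1]
  -- the count map
  let cnt : (Fin n → Q) → (Q → Fin (n + 1)) := fun c q =>
    ⟨(univ.filter fun i => c i = q).card, by
      have := Finset.card_le_univ (univ.filter fun i => c i = q)
      rw [Fintype.card_fin] at this
      omega⟩
  have h2 : ∀ m : Q → Fin (n + 1), ∑ c ∈ univ.filter (fun c => cnt c = m),
      (univ.filter fun π : Perm (Fin n) => c ∘ π = c).card ≤ n.factorial := by
    intro m
    by_cases hne : (univ.filter (fun c => cnt c = m)).Nonempty
    · obtain ⟨c₀, hc₀⟩ := hne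
      rw [mem_filter] at hc₀
      -- each stabiliser has the same size as the set of maps from c₀ to c
      have h3 : ∀ c ∈ univ.filter (fun c => cnt c = m),
          (univ.filter fun π : Perm (Fin n) => c ∘ π = c).card =
            (univ.filter fun π : Perm (Fin n) => c₀ ∘ π = c).card := by
        intro c hc
        rw [mem_filter] at hc
        obtain ⟨ρ, hρ⟩ := exists_perm_of_counts c₀ c (by
          intro q
          have := congrFun (hc₀.2.trans hc.2.symm) q
          exact congrArg Fin.val this)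
        refine Finset.card_bij (fun π _ => ρ * π) ?_ ?_ ?_
        · intro π hπ
          rw [mem_filter] at hπ ⊢
          refine ⟨mem_univ _, ?_⟩
          rw [Perm.coe_mul, ← comp_assoc, hρ, hπ.2]
        · intro π _ π' _ hh
          exact mul_left_cancel hh
        · intro π hπ
          rw [mem_filter] at hπ
          refine ⟨ρ⁻¹ * π, ?_, by rw [mul_inv_cancel_left]⟩
          rw [mem_filter]
          refine ⟨mem_univ _, ?_⟩
          rw [← hρ, Perm.coe_mul, comp_assoc, ← comp_assoc ρ, ← Perm.coe_mul, mul_inv_cancel,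
            Perm.coe_one, id_comp, hπ.2, hρ]
      rw [Finset.sum_congr rfl h3]
      have h4 : ∑ c ∈ univ.filter (fun c => cnt c = m),
          (univ.filter fun π : Perm (Fin n) => c₀ ∘ π = c).card ≤
          ∑ c : Fin n → Q, (univ.filter fun π : Perm (Fin n) => c₀ ∘ π = c).card :=
        Finset.sum_le_sum_of_subset (Finset.filter_subset _ _)
      refine h4.trans (le_of_eq ?_)
      have h5 := Finset.card_eq_sum_card_fiberwise (s := (univ : Finset (Perm (Fin n))))
        (t := (univ : Finset (Fin n → Q))) (f := fun π : Perm (Fin n) => c₀ ∘ ⇑π)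
        (fun π _ => mem_coe.2 (mem_univ _))
      rw [← h5, Finset.card_univ, Fintype.card_perm, Fintype.card_fin]
    · rw [Finset.not_nonempty_iff_eq_empty] at hne
      rw [hne, Finset.sum_empty]
      exact Nat.zero_le _
  calc ∑ c : Fin n → Q, (univ.filter fun π : Perm (Fin n) => c ∘ π = c).card
      = ∑ m : Q → Fin (n + 1), ∑ c ∈ univ.filter (fun c => cnt c = m),
        (univ.filter fun π : Perm (Fin n) => c ∘ π = c).card := by
        rw [Finset.sum_fiberwise]
    _ ≤ ∑ m : Q → Fin (n + 1), n.factorial := Finset.sum_le_sum fun m _ => h2 m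
    _ = (n + 1) ^ Fintype.card Q * n.factorial := by
        rw [Finset.sum_const, Finset.card_univ, Fintype.card_fun, Fintype.card_fin, smul_eq_mul]

end Pool.Agent.Y38.CC
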