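import Mathlib
import Pool.Agent.Y38.CC.Gram

/-!
# A lower bound for the trace codimensions, second part
-/

set_option autoImplicit false
set_option linter.unusedSectionVars false

namespace Pool.Agent.Y38.CC

open Finset Function Equiv Module

variable {k n : ℕ}

/-- The linear equivalence between Euclidean space and functions. -/
noncomputable def unc (k n : ℕ) :
    ((Fin n → Fin k) → (Fin n → Fin k) → ℝ) ≃ₗ[ℝ]
      EuclideanSpace ℝ ((Fin n → Fin k) × (Fin n → Fin k)) where
  toFun F := WithLp.toLp 2 fun p => F p.1 p.2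
  invFun G := fun a b => G (a, b)
  map_add' _ _ := rfl
  map_smul' _ _ := rfl
  left_inv _ := rfl
  right_inv _ := rfl

theorem inner_unc (F G : (Fin n → Fin k) → (Fin n → Fin k) → ℝ) :
    inner ℝ (unc k n F) (unc k n G) = ∑ a, ∑ b, F a b * G a b := by
  rw [PiLp.inner_apply, Fintype.sum_prod_type]
  refine Finset.sum_congr rfl fun a _ => Finset.sum_congr rfl fun b _ => ?_
  change inner ℝ (F a b) (G a b) = _
  simp [mul_comm]

theorem mt_eq_ite (σ : Perm (Fin n)) (a b : Fin n → Fin k) :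
    mt ℝ univ σ a b = if b = a ∘ σ then 1 else 0 := by
  rw [mt, Finset.prod_ite_zero]
  simp [funext_iff]

theorem inner_mt (σ τ : Perm (Fin n)) :
    inner ℝ (unc k n (mt ℝ univ σ)) (unc k n (mt ℝ univ τ)) =
      ((univ.filter fun a : Fin n → Fin k => a ∘ σ = a ∘ τ).card : ℝ) := by
  rw [inner_unc, Finset.card_filter, Nat.cast_sum]
  refine Finset.sum_congr rfl fun a _ => ?_
  rw [Finset.sum_eq_single (a ∘ σ)]
  · rw [mt_eq_ite, mt_eq_ite, if_pos rfl, one_mul]
    split_ifs <;> simp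
  · intro b _ hb
    rw [mt_eq_ite, if_neg hb, zero_mul]
  · intro h; exact absurd (mem_univ _) h

theorem card_sq (σ τ : Perm (Fin n)) :
    (univ.filter fun a : Fin n → Fin k => a ∘ σ = a ∘ τ).card ^ 2 =
      (univ.filter fun c : Fin n → Fin k × Fin k => c ∘ σ = c ∘ τ).card := by
  classical
  rw [sq, ← Finset.card_product]
  refine Finset.card_bij (fun p _ => fun i => (p.1 i, p.2 i)) ?_ ?_ ?_
  · rintro ⟨a, a'⟩ h
    simp only [Finset.mem_product, mem_filter, mem_univ, true_and] at h ⊢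
    funext i
    exact Prod.ext (congrFun h.1 i) (congrFun h.2 i)
  · rintro ⟨a, a'⟩ _ ⟨c, c'⟩ _ h
    refine Prod.ext ?_ ?_
    · funext i
      exact congrArg Prod.fst (congrFun h i)
    · funext i
      exact congrArg Prod.snd (congrFun h i)
  · intro c hc
    rw [mem_filter] at hc
    refine ⟨(fun i => (c i).1, fun i => (c i).2), ?_, rfl⟩
    simp only [Finset.mem_product, mem_filter, mem_univ, true_and]
    exact ⟨funext fun i => congrArg Prod.fst (congrFun hc.2 i),
      funext fun i => congrArg Prod.snd (congrFun hc.2 i)⟩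

theorem sum_sum_card :
    ∑ σ : Perm (Fin n), ∑ τ : Perm (Fin n),
      (univ.filter fun a : Fin n → Fin k => a ∘ σ = a ∘ τ).card ^ 2 ≤
      n.factorial * ((n + 1) ^ (k ^ 2) * n.factorial) := by
  classical
  have h1 : ∀ σ : Perm (Fin n), ∑ τ : Perm (Fin n),
      (univ.filter fun a : Fin n → Fin k => a ∘ σ = a ∘ τ).card ^ 2 =
      ∑ π : Perm (Fin n), (univ.filter fun c : Fin n → Fin k × Fin k => c ∘ π = c).card := by
    intro σ
    refine Fintype.sum_equiv (Equiv.mulRight σ⁻¹) _ _ fun τ => ?_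
    rw [card_sq]
    congr 1
    ext c
    rw [mem_filter, mem_filter]
    simp only [mem_univ, true_and, Equiv.coe_mulRight, Perm.coe_mul]
    constructor
    · intro h
      rw [← comp_assoc, ← h, comp_assoc, ← Perm.coe_mul, mul_inv_cancel, Perm.coe_one, comp_id]
    · intro h
      nth_rewrite 1 [← h]
      rw [← comp_assoc, comp_assoc, ← Perm.coe_mul, inv_mul_cancel, Perm.coe_one, comp_id]
  rw [Finset.sum_congr rfl fun σ _ => h1 σ, Finset.sum_const, Finset.card_univ,
    Fintype.card_perm, Fintype.card_fin, smul_eq_mul]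
  refine Nat.mul_le_mul_left _ ?_
  have h2 := sum_fix_le (n := n) (Q := Fin k × Fin k)
  rw [Fintype.card_prod, Fintype.card_fin, ← sq] at h2
  exact h2

theorem finrank_span_unc :
    finrank ℝ (Submodule.span ℝ (Set.range fun σ : Perm (Fin n) => unc k n (mt ℝ univ σ))) =
      tn ℝ k n := by
  have h1 : Submodule.span ℝ (Set.range fun σ : Perm (Fin n) => unc k n (mt ℝ univ σ)) =
      (TT ℝ k (univ : Finset (Fin n)) univ).map (unc k n).toLinearMap := by
    rw [TT, Submodule.map_span]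
    congr 1
    ext G
    constructor
    · rintro ⟨σ, rfl⟩
      exact ⟨mt ℝ univ σ, ⟨σ, Finset.image_univ_equiv σ, rfl⟩, rfl⟩
    · rintro ⟨_, ⟨σ, _, rfl⟩, rfl⟩
      exact ⟨σ, rfl⟩
  rw [h1, tn]
  exact LinearEquiv.finrank_map_eq (unc k n) _

theorem tn_lower : (k ^ 2) ^ n ≤ tn ℝ k n * (n + 1) ^ (k ^ 2) := by
  have h := gram_bound fun σ : Perm (Fin n) => unc k n (mt ℝ univ σ)
  rw [finrank_span_unc] at h
  have h1 : ∑ σ : Perm (Fin n), inner ℝ (unc k n (mt ℝ univ σ)) (unc k n (mt ℝ univ σ)) =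
      (n.factorial : ℝ) * (k : ℝ) ^ n := by
    have : ∀ σ : Perm (Fin n), inner ℝ (unc k n (mt ℝ univ σ)) (unc k n (mt ℝ univ σ)) =
        (k : ℝ) ^ n := by
      intro σ
      rw [inner_mt, Finset.filter_true_of_mem (fun _ _ => rfl), Finset.card_univ, Fintype.card_fun,
        Fintype.card_fin, Fintype.card_fin, Nat.cast_pow]
    rw [Finset.sum_congr rfl fun σ _ => this σ, Finset.sum_const, Finset.card_univ,
      Fintype.card_perm, Fintype.card_fin, nsmul_eq_mul]
  have h2 : ∑ σ : Perm (Fin n), ∑ τ : Perm (Fin n),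
      (inner ℝ (unc k n (mt ℝ univ σ)) (unc k n (mt ℝ univ τ))) ^ 2 ≤
      (((n.factorial * ((n + 1) ^ (k ^ 2) * n.factorial) : ℕ)) : ℝ) := by
    refine le_trans (le_of_eq ?_) (Nat.cast_le.2 (sum_sum_card (k := k) (n := n)))
    rw [Nat.cast_sum]
    refine Finset.sum_congr rfl fun σ _ => ?_
    rw [Nat.cast_sum]
    refine Finset.sum_congr rfl fun τ _ => ?_
    rw [inner_mt, Nat.cast_pow]
  rw [h1] at h
  have h3 := h.trans (mul_le_mul_of_nonneg_left h2 (Nat.cast_nonneg _))
  have h4 : ((n.factorial * k ^ n) ^ 2 : ℕ) ≤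
      tn ℝ k n * (n.factorial * ((n + 1) ^ (k ^ 2) * n.factorial)) := by
    exact_mod_cast h3
  have hpos : 0 < n.factorial * n.factorial := Nat.mul_pos n.factorial_pos n.factorial_pos
  refine Nat.le_of_mul_le_mul_left (c := n.factorial * n.factorial) ?_ hpos
  calc n.factorial * n.factorial * (k ^ 2) ^ n = (n.factorial * k ^ n) ^ 2 := by
        rw [← pow_mul, mul_comm 2 n, pow_mul]; ring
    _ ≤ _ := h4
    _ = n.factorial * n.factorial * (tn ℝ k n * (n + 1) ^ (k ^ 2)) := by ring

end Pool.Agent.Y38.CC
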