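import Mathlib

/-!
# A Cauchy-Schwarz inequality for the corners of a semisimple algebra
-/

set_option autoImplicit false

namespace Pool.Agent.Y38.CC

open LinearMap Module

theorem repr_sandwich {n : ℕ} (d : Fin n → ℕ)
    (a b : (i : Fin n) → Matrix (Fin (d i)) (Fin (d i)) ℂ) (i : Fin n) (p q : Fin (d i)) :
    (a * ((Pi.single i (Matrix.single p q 1) : (i : Fin n) → Matrix (Fin (d i)) (Fin (d i)) ℂ)
      * b)) i p q = a i p p * b i q q := by
  classical
  have h1 : (a * ((Pi.single i (Matrix.single p q 1) :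
      (i : Fin n) → Matrix (Fin (d i)) (Fin (d i)) ℂ) * b)) i =
      a i * Matrix.single p q 1 * b i := by
    rw [Pi.mul_apply, Pi.mul_apply, Pi.single_eq_same, Matrix.mul_assoc]
  rw [h1, Matrix.mul_apply, Finset.sum_eq_single q]
  · rw [Matrix.mul_single_apply_same, mul_one]
  · intro j _ hj
    rw [Matrix.mul_single_apply_of_ne _ _ _ _ _ hj, zero_mul]
  · intro h; exact absurd (Finset.mem_univ q) h

theorem trace_sandwich {n : ℕ} (d : Fin n → ℕ)
    (a b : (i : Fin n) → Matrix (Fin (d i)) (Fin (d i)) ℂ) :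
    trace ℂ _ ((mulLeft ℂ a) ∘ₗ (mulRight ℂ b)) = ∑ i, (a i).trace * (b i).trace := by
  classical
  rw [trace_eq_matrix_trace ℂ (Pi.basis (fun i => Matrix.stdBasis ℂ (Fin (d i)) (Fin (d i)))),
    Matrix.trace, Fintype.sum_sigma]
  refine Finset.sum_congr rfl fun i _ => ?_
  rw [Fintype.sum_prod_type, Matrix.trace, Matrix.trace, Finset.sum_mul_sum]
  refine Finset.sum_congr rfl fun p _ => Finset.sum_congr rfl fun q _ => ?_
  rw [Matrix.diag_apply, Matrix.diag_apply, Matrix.diag_apply, toMatrix_apply, Pi.basis_apply,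
    Pi.basis_repr, Matrix.stdBasis_eq_single, comp_apply, mulRight_apply, mulLeft_apply]
  have h := repr_sandwich d a b i p q
  rw [← h]
  have h2 : ∀ M : Matrix (Fin (d i)) (Fin (d i)) ℂ,
      (Matrix.stdBasis ℂ (Fin (d i)) (Fin (d i))).repr M (p, q) = M p q := fun M => rfl
  rw [h2]

theorem trace_idem {m : ℕ} (a : Matrix (Fin m) (Fin m) ℂ) (ha : a * a = a) :
    ∃ r : ℕ, a.trace = r := by
  refine ⟨finrank ℂ (range (Matrix.toLin' a)), ?_⟩
  have h : IsIdempotentElem (Matrix.toLin' a) := by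
    rw [IsIdempotentElem, Module.End.mul_eq_comp, ← Matrix.toLin'_mul, ha]
  rw [← Matrix.trace_toLin'_eq, h.isProj_range.trace]

theorem corner_ineq {A : Type*} [Ring A] [Algebra ℂ A] [FiniteDimensional ℂ A]
    [IsSemisimpleRing A] (e : A) (he : e * e = e) :
    (finrank ℂ (range (mulRight ℂ e))) ^ 2 ≤
      finrank ℂ (range ((mulLeft ℂ e) ∘ₗ (mulRight ℂ e))) * finrank ℂ A := by
  classical
  obtain ⟨n, d, -, ⟨φ⟩⟩ := IsSemisimpleRing.exists_algEquiv_pi_matrix_of_isAlgClosed ℂ A
  have hconj : ∀ a b : A, trace ℂ A ((mulLeft ℂ a) ∘ₗ (mulRight ℂ b)) =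
      ∑ i, (φ a i).trace * (φ b i).trace := by
    intro a b
    rw [← trace_sandwich, ← trace_conj' _ φ.toLinearEquiv]
    congr 1
    refine LinearMap.ext fun x => ?_
    rw [LinearEquiv.conj_apply]
    simp only [comp_apply, LinearEquiv.coe_coe, mulRight_apply, mulLeft_apply]
    change φ (a * (φ.symm x * b)) = φ a * (x * φ b)
    rw [map_mul, map_mul, AlgEquiv.apply_symm_apply]
  have hr : ∀ i, ∃ r : ℕ, (φ e i).trace = r := by
    intro i
    apply trace_idem
    rw [← Pi.mul_apply, ← map_mul, he]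
  choose r hr using hr
  have h1 : ((finrank ℂ (range (mulRight ℂ e)) : ℕ) : ℂ) = ((∑ i, d i * r i : ℕ) : ℂ) := by
    have hi : IsIdempotentElem (mulRight ℂ e) := by
      rw [IsIdempotentElem, Module.End.mul_eq_comp]
      ext x
      simp [mul_assoc, he]
    rw [← hi.isProj_range.trace]
    have h2 := hconj 1 e
    have h3 : (mulLeft ℂ (1 : A)) ∘ₗ (mulRight ℂ e) = mulRight ℂ e := by ext x; simp
    rw [h3] at h2
    rw [h2]
    push_cast
    refine Finset.sum_congr rfl fun i _ => ?_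
    rw [hr, map_one, Pi.one_apply, Matrix.trace_one, Fintype.card_fin]
  have h2 : ((finrank ℂ (range ((mulLeft ℂ e) ∘ₗ (mulRight ℂ e))) : ℕ) : ℂ) =
      ((∑ i, r i * r i : ℕ) : ℂ) := by
    have hi : IsIdempotentElem ((mulLeft ℂ e) ∘ₗ (mulRight ℂ e)) := by
      rw [IsIdempotentElem, Module.End.mul_eq_comp]
      ext x
      simp only [comp_apply, mulLeft_apply, mulRight_apply]
      rw [show e * (e * (x * e) * e) = (e * e) * x * (e * e) by simp only [mul_assoc], he,
        mul_assoc]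
    rw [← hi.isProj_range.trace, hconj]
    push_cast
    refine Finset.sum_congr rfl fun i _ => ?_
    rw [hr]
  have h3 : ((finrank ℂ A : ℕ) : ℂ) = ((∑ i, d i * d i : ℕ) : ℂ) := by
    rw [φ.toLinearEquiv.finrank_eq, Module.finrank_pi_fintype]
    push_cast
    refine Finset.sum_congr rfl fun i _ => ?_
    rw [Module.finrank_matrix]
    simp
  have h1' := Nat.cast_injective h1
  have h2' := Nat.cast_injective h2
  have h3' := Nat.cast_injective h3
  rw [h1', h2', h3']
  have h4 := Finset.sum_mul_sq_le_sq_mul_sq Finset.univ (fun i => (r i : ℕ)) (fun i => d i)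
  calc (∑ i, d i * r i) ^ 2 = (∑ i, r i * d i) ^ 2 := by
        congr 1; exact Finset.sum_congr rfl fun i _ => mul_comm _ _
    _ ≤ (∑ i, r i ^ 2) * ∑ i, d i ^ 2 := h4
    _ = _ := by simp only [sq]

end Pool.Agent.Y38.CC
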