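import Mathlib

/-!
# Matrix algebras closed under the conjugate transpose are semisimple
-/

set_option autoImplicit false

namespace Pool.Agent.Y38.CC

open Matrix
open scoped ComplexOrder

variable {J : Type*} [Fintype J] [DecidableEq J]

theorem herm_nilp (y : Matrix J J ℂ) (hy : yᴴ = y) (k : ℕ) (h : y ^ (2 ^ k) = 0) : y = 0 := by
  induction k with
  | zero => simpa using h
  | succ k ih =>
    apply ih
    have h1 : (y ^ (2 ^ k))ᴴ * (y ^ (2 ^ k)) = 0 := by
      rw [conjTranspose_pow, hy, ← pow_add]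
      rw [show 2 ^ k + 2 ^ k = 2 ^ (k + 1) by ring, h]
    exact Matrix.conjTranspose_mul_self_eq_zero.1 h1

theorem star_semisimple (S : Subalgebra ℂ (Matrix J J ℂ)) (hS : ∀ x ∈ S, xᴴ ∈ S) :
    IsSemisimpleRing S := by
  have hart : IsArtinianRing S := IsArtinianRing.of_finite ℂ S
  rw [IsArtinianRing.isSemisimpleRing_iff_jacobson, eq_bot_iff]
  intro x hx
  obtain ⟨n, hn⟩ := (IsSemiprimaryRing.isNilpotent (R := S))
  let xs : S := ⟨(x : Matrix J J ℂ)ᴴ, hS _ x.2⟩
  have hy : xs * x ∈ Ring.jacobson S := (Ring.jacobson S).mul_mem_left xs hx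
  have hpow : (xs * x) ^ (2 ^ n) = 0 := by
    have h1 : (xs * x) ^ n ∈ Ring.jacobson S ^ n := Ideal.pow_mem_pow hy n
    rw [hn] at h1
    have h2 : (xs * x) ^ n = 0 := h1
    rw [← Nat.sub_add_cancel (Nat.lt_two_pow_self (n := n)).le, pow_add, h2, mul_zero]
  have h3 : ((x : Matrix J J ℂ)ᴴ * (x : Matrix J J ℂ)) = 0 := by
    refine herm_nilp _ ?_ n ?_
    · rw [conjTranspose_mul, conjTranspose_conjTranspose]
    · have := congrArg (Subtype.val) hpow
      simpa [xs] using this
  have h4 : (x : Matrix J J ℂ) = 0 := Matrix.conjTranspose_mul_self_eq_zero.1 h3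
  rw [Submodule.mem_bot]
  exact Subtype.ext h4

end Pool.Agent.Y38.CC
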