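import Mathlib
import Pool.Agent.Y38.CC.Relabel
import Pool.Agent.Y38.CC.Semi
import Pool.Agent.Y38.CC.Star

/-!
# Log-convexity of the trace codimensions
-/

set_option autoImplicit false
set_option linter.unusedSectionVars false

namespace Pool.Agent.Y38.CC

open Finset Function Equiv Module

variable {ι : Type*} [DecidableEq ι] [Fintype ι] {k : ℕ} {K : Type*} [Field K]

/-- Contraction as a linear map. -/
def ctrL (K : Type*) [Field K] (k : ℕ) (u l : ι) :
    ((ι → Fin k) → (ι → Fin k) → K) →ₗ[K] ((ι → Fin k) → (ι → Fin k) → K) where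
  toFun := ctr u l
  map_add' := ctr_add u l
  map_smul' := ctr_smul u l

theorem map_ctr [NeZero k] [CharZero K] {U L : Finset ι} {u l : ι} (hu : u ∈ U) (hl : l ∈ L) :
    (TT K k U L).map (ctrL K k u l) = TT K k (U.erase u) (L.erase l) := by
  apply le_antisymm
  · rw [Submodule.map_le_iff_le_comap]
    intro F hF
    exact ctr_mem hu hl hF
  · rw [TT, Submodule.span_le]
    rintro _ ⟨β, hβ, rfl⟩
    have h1 : ∀ i ∈ L.erase l, (swap (β l) u * β) i = β i := by
      intro i hi
      rw [Perm.mul_apply, swap_apply_of_ne_of_ne]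
      · intro h
        exact Finset.ne_of_mem_erase hi (β.injective h)
      · intro h
        have : β i ∈ U.erase u := by rw [← hβ]; exact mem_image_of_mem _ hi
        rw [h] at this
        exact Finset.notMem_erase u U this
    have h2 : (swap (β l) u * β) l = u := by rw [Perm.mul_apply, swap_apply_left]
    have h3 : L.image (swap (β l) u * β) = U := by
      rw [← Finset.insert_erase hl, Finset.image_insert, h2, Finset.image_congr (g := β) h1, hβ,
        Finset.insert_erase hu]
    have h4 : mt (k := k) K (L.erase l) (swap (β l) u * β) = mt K (L.erase l) β := by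
      funext a b
      refine Finset.prod_congr rfl fun i hi => ?_
      rw [h1 i hi]
    have h5 := ctr_mt_self (K := K) (k := k) L (swap (β l) u * β) hl
    rw [h2, h4] at h5
    refine ⟨((k : K)⁻¹) • mt K L (swap (β l) u * β),
      Submodule.smul_mem _ _ (Submodule.subset_span ⟨_, h3, rfl⟩), ?_⟩
    rw [map_smul]
    change (k : K)⁻¹ • ctr u l _ = _
    rw [h5, smul_smul, inv_mul_cancel₀ (Nat.cast_ne_zero.2 (NeZero.ne k)), one_smul]

/-- The partial transpose at `t`. -/
def pt (K : Type*) [Field K] (k : ℕ) (t : ι) :
    ((ι → Fin k) → (ι → Fin k) → K) →ₗ[K] Matrix (ι → Fin k) (ι → Fin k) K where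
  toFun F := Matrix.of fun j j' => F (update j' t (j t)) (update j t (j' t))
  map_add' _ _ := rfl
  map_smul' _ _ := rfl

theorem pt_apply (t : ι) (F : (ι → Fin k) → (ι → Fin k) → K) (j j' : ι → Fin k) :
    pt K k t F j j' = F (update j' t (j t)) (update j t (j' t)) := rfl

theorem pt_injective (t : ι) : Injective (pt K k t) := by
  intro F G h
  funext a b
  have h1 := congrFun (congrFun h (update b t (a t))) (update a t (b t))
  rw [pt_apply, pt_apply] at h1
  simpa using h1

theorem pt_one (t : ι) : pt K k t (mt K univ 1) = 1 := by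
  ext j j'
  rw [pt_apply, mt, Matrix.one_apply]
  by_cases h : j = j'
  · subst h
    rw [if_pos rfl]
    refine Finset.prod_eq_one fun i _ => ?_
    rw [if_pos]
    rw [Perm.one_apply]
  · rw [if_neg h]
    obtain ⟨i, hi⟩ := Function.ne_iff.1 h
    refine Finset.prod_eq_zero (mem_univ i) (if_neg ?_)
    rw [Perm.one_apply]
    by_cases hit : i = t
    · subst hit
      rw [update_self, update_self]
      exact fun h => hi h.symm
    · rw [update_of_ne hit, update_of_ne hit]
      exact hi

theorem mt_flip (σ : Perm ι) (a b : ι → Fin k) : mt K univ σ b a = mt K univ σ⁻¹ a b := by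
  rw [mt, mt, ← Equiv.prod_comp σ⁻¹]
  refine Finset.prod_congr rfl fun i _ => ?_
  have : σ (σ⁻¹ i) = i := by rw [← Perm.mul_apply, mul_inv_cancel, Perm.one_apply]
  rw [this]
  by_cases h : a (σ⁻¹ i) = b i
  · rw [if_pos h, if_pos h.symm]
  · rw [if_neg h, if_neg (fun h' => h h'.symm)]

/-- The labels to be contracted in a product: upper. -/
def lu (t : ι) (i : ι) : ι ⊕ ι := if i = t then Sum.inr i else Sum.inl i

/-- The labels to be contracted in a product: lower. -/
def ll (t : ι) (i : ι) : ι ⊕ ι := if i = t then Sum.inl i else Sum.inr i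

theorem lu_injective (t : ι) : Injective (lu t) := by
  intro i j h
  unfold lu at h
  split_ifs at h with h1 h2 h2
  · exact h1.trans h2.symm
  · exact Sum.inl_injective h

theorem ll_injective (t : ι) : Injective (ll t) := by
  intro i j h
  unfold ll at h
  split_ifs at h with h1 h2 h2
  · exact h1.trans h2.symm
  · exact Sum.inr_injective h

theorem compl_lu (t : ι) : (univ : Finset (ι ⊕ ι)) \ univ.image (lu t) = univ.image (ll t) := by
  ext x
  simp only [mem_sdiff, mem_univ, true_and, Finset.mem_image, not_exists]
  rcases x with i | i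
  · constructor
    · intro h
      refine ⟨i, ?_⟩
      by_cases hi : i = t
      · rw [ll, if_pos hi]
      · exact absurd (if_neg hi) (h i)
    · rintro ⟨j, hj⟩ i' hi'
      rw [ll] at hj
      rw [lu] at hi'
      split_ifs at hj with h1
      split_ifs at hi' with h2
      have := Sum.inl_injective hj
      have h3 := Sum.inl_injective hi'
      exact h2 (by rw [h3, ← this, h1])
  · constructor
    · intro h
      refine ⟨i, ?_⟩
      by_cases hi : i = t
      · exact absurd (if_pos hi) (h i)
      · rw [ll, if_neg hi]
    · rintro ⟨j, hj⟩ i' hi'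
      rw [ll] at hj
      rw [lu] at hi'
      split_ifs at hj with h1
      split_ifs at hi' with h2
      have := Sum.inr_injective hj
      have h3 := Sum.inr_injective hi'
      exact h1 (by rw [this, ← h3, h2])

theorem compl_ll (t : ι) : (univ : Finset (ι ⊕ ι)) \ univ.image (ll t) = univ.image (lu t) := by
  rw [← compl_lu, Finset.sdiff_sdiff_eq_self (Finset.subset_univ _)]

theorem mul_mem_aux (t : ι) (σ τ : Perm ι) :
    ∃ F ∈ TT K k (univ : Finset ι) univ, pt K k t (mt K univ σ) * pt K k t (mt K univ τ) =
      pt K k t F := by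
  classical
  -- the function on doubled labels
  have hH : mt (k := k) K univ (Perm.sumCongr σ τ) ∈ TT K k (univ : Finset (ι ⊕ ι)) univ :=
    Submodule.subset_span ⟨_, Finset.image_univ_equiv _, rfl⟩
  let e : ι ≃ Fin (Fintype.card ι) := Fintype.equivFin ι
  have h1 := multi_ctr_mem (K := K) (k := k) univ univ (fun j => lu t (e.symm j))
    (fun j => ll t (e.symm j)) ((lu_injective t).comp e.symm.injective)
    ((ll_injective t).comp e.symm.injective) (fun _ => mem_univ _) (fun _ => mem_univ _) _ hH
  have h2 : ∀ f : ι → ι ⊕ ι, univ.image (fun j => f (e.symm j)) = univ.image f := by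
    intro f
    ext x
    simp only [Finset.mem_image, mem_univ, true_and]
    exact ⟨fun ⟨j, hj⟩ => ⟨_, hj⟩, fun ⟨i, hi⟩ => ⟨e i, by rw [Equiv.symm_apply_apply]; exact hi⟩⟩
  rw [h2, h2, compl_lu, compl_ll, ← map_pull (ll_injective t) (lu_injective t)] at h1
  obtain ⟨F, hF, hF2⟩ := h1
  refine ⟨F, hF, ?_⟩
  ext j j''
  rw [pt_apply, Matrix.mul_apply]
  have h3 := congrFun (congrFun hF2 (Sum.elim (fun _ => j t) j'')) (Sum.elim j (fun _ => j'' t))
  have h4 : (Sum.elim (fun _ => j t) j'') ∘ (ll t) = update j'' t (j t) := by
    funext i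
    by_cases hi : i = t
    · subst hi; simp [ll]
    · simp [ll, hi]
  have h5 : (Sum.elim j (fun _ => j'' t)) ∘ (lu t) = update j t (j'' t) := by
    funext i
    by_cases hi : i = t
    · subst hi; simp [lu]
    · simp [lu, hi]
  change F ((Sum.elim (fun _ => j t) j'') ∘ (ll t)) ((Sum.elim j (fun _ => j'' t)) ∘ (lu t)) = _ at h3
  rw [h4, h5] at h3
  rw [h3]
  rw [← (Equiv.arrowCongr e (Equiv.refl (Fin k))).symm.sum_comp]
  refine Finset.sum_congr rfl fun y _ => ?_
  obtain ⟨x, rfl⟩ : ∃ x : ι → Fin k, y = x ∘ e.symm := ⟨y ∘ e, by funext i; simp⟩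
  have h6 : ((e.arrowCongr (Equiv.refl (Fin k))).symm (x ∘ e.symm)) = x := by
    funext i; simp [Equiv.arrowCongr]
  rw [h6, pt_apply, pt_apply]
  have hext : ∀ (f : ι → ι ⊕ ι) (hf : Injective f) (A : ι ⊕ ι → Fin k),
      extend (fun j => f (e.symm j)) (x ∘ e.symm) A = extend f x A := by
    intro f hf A
    funext z
    by_cases hz : ∃ i, f i = z
    · obtain ⟨i, rfl⟩ := hz
      rw [hf.extend_apply]
      have := (hf.comp e.symm.injective).extend_apply (x ∘ e.symm) A (e i)
      rw [comp_apply, comp_apply, Equiv.symm_apply_apply] at this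
      exact this
    · rw [extend_apply' _ _ _ hz, extend_apply']
      rintro ⟨i, hi⟩
      exact hz ⟨_, hi⟩
  rw [hext _ (lu_injective t), hext _ (ll_injective t), mt, mt, mt, Fintype.prod_sum_type]
  have hu1 : ∀ i, extend (lu t) x (Sum.elim (fun _ => j t) j'') (Sum.inl i) =
      update x t (j t) i := by
    intro i
    by_cases hi : i = t
    · subst hi
      rw [update_self, extend_apply']
      · rfl
      · rintro ⟨i', hi'⟩
        unfold lu at hi'
        split_ifs at hi' with h
        exact h (Sum.inl_injective hi')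
    · rw [update_of_ne hi]
      have := (lu_injective t).extend_apply x (Sum.elim (fun _ => j t) j'') i
      rwa [lu, if_neg hi] at this
  have hu2 : ∀ i, extend (lu t) x (Sum.elim (fun _ => j t) j'') (Sum.inr i) =
      update j'' t (x t) i := by
    intro i
    by_cases hi : i = t
    · subst hi
      rw [update_self]
      have := (lu_injective i).extend_apply x (Sum.elim (fun _ => j i) j'') i
      rwa [lu, if_pos rfl] at this
    · rw [update_of_ne hi, extend_apply']
      · rfl
      · rintro ⟨i', hi'⟩
        unfold lu at hi'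
        split_ifs at hi' with h
        exact hi ((Sum.inr_injective hi').symm.trans h)
  have hl1 : ∀ i, extend (ll t) x (Sum.elim j (fun _ => j'' t)) (Sum.inl i) =
      update j t (x t) i := by
    intro i
    by_cases hi : i = t
    · subst hi
      rw [update_self]
      have := (ll_injective i).extend_apply x (Sum.elim j (fun _ => j'' i)) i
      rwa [ll, if_pos rfl] at this
    · rw [update_of_ne hi, extend_apply']
      · rfl
      · rintro ⟨i', hi'⟩
        unfold ll at hi'
        split_ifs at hi' with h
        exact hi ((Sum.inl_injective hi').symm.trans h)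
  have hl2 : ∀ i, extend (ll t) x (Sum.elim j (fun _ => j'' t)) (Sum.inr i) =
      update x t (j'' t) i := by
    intro i
    by_cases hi : i = t
    · subst hi
      rw [update_self, extend_apply']
      · rfl
      · rintro ⟨i', hi'⟩
        unfold ll at hi'
        split_ifs at hi' with h
        exact h (Sum.inr_injective hi')
    · rw [update_of_ne hi]
      have := (ll_injective t).extend_apply x (Sum.elim j (fun _ => j'' t)) i
      rwa [ll, if_neg hi] at this
  congr 1
  · refine Finset.prod_congr rfl fun i _ => ?_
    rw [Perm.sumCongr_apply, Sum.map_inl, hu1, hl1]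
  · refine Finset.prod_congr rfl fun i _ => ?_
    rw [Perm.sumCongr_apply, Sum.map_inr, hu2, hl2]

end Pool.Agent.Y38.CC
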