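import Mathlib
import Pool.Agent.Y38.CC.LogConvex

/-!
# Log-convexity of the trace codimensions, conclusion
-/

set_option autoImplicit false
set_option linter.unusedSectionVars false

namespace Pool.Agent.Y38.CC

open Finset Function Equiv Module

variable {ι : Type*} [DecidableEq ι] [Fintype ι] {k : ℕ} {K : Type*} [Field K]

/-- The algebra of partially transposed matching functions. -/
def SS (k : ℕ) (t : ι) : Subalgebra ℂ (Matrix (ι → Fin k) (ι → Fin k) ℂ) where
  carrier := ((TT ℂ k (univ : Finset ι) univ).map (pt ℂ k t) : Submodule ℂ _)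
  mul_mem' := by
    rintro _ _ ⟨F, hF, rfl⟩ ⟨G, hG, rfl⟩
    change pt ℂ k t F * pt ℂ k t G ∈ (TT ℂ k (univ : Finset ι) univ).map (pt ℂ k t)
    induction hF using Submodule.span_induction with
    | mem F hF =>
      obtain ⟨σ, -, rfl⟩ := hF
      induction hG using Submodule.span_induction with
      | mem G hG =>
        obtain ⟨τ, -, rfl⟩ := hG
        obtain ⟨H, hH, h⟩ := mul_mem_aux (K := ℂ) (k := k) t σ τ
        rw [h]
        exact Submodule.mem_map_of_mem hH
      | zero => rw [map_zero, mul_zero]; exact Submodule.zero_mem _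
      | add F G _ _ hF hG => rw [map_add, mul_add]; exact Submodule.add_mem _ hF hG
      | smul c F _ hF => rw [map_smul, mul_smul_comm]; exact Submodule.smul_mem _ _ hF
    | zero => rw [map_zero, zero_mul]; exact Submodule.zero_mem _
    | add F G _ _ hF hG => rw [map_add, add_mul]; exact Submodule.add_mem _ hF hG
    | smul c F _ hF => rw [map_smul, smul_mul_assoc]; exact Submodule.smul_mem _ _ hF
  add_mem' := by
    intro a b ha hb
    exact Submodule.add_mem _ ha hb
  algebraMap_mem' := by
    intro r
    change algebraMap ℂ _ r ∈ (TT ℂ k (univ : Finset ι) univ).map (pt ℂ k t)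
    rw [Algebra.algebraMap_eq_smul_one, ← pt_one (K := ℂ) (k := k) t]
    refine Submodule.smul_mem _ _ (Submodule.mem_map_of_mem (Submodule.subset_span ⟨1, ?_, rfl⟩))
    exact Finset.image_univ_equiv _

theorem mem_SS {t : ι} {M : Matrix (ι → Fin k) (ι → Fin k) ℂ} :
    M ∈ SS k t ↔ M ∈ (TT ℂ k (univ : Finset ι) univ).map (pt ℂ k t) := Iff.rfl

theorem SS_star (t : ι) : ∀ x ∈ SS k t, x.conjTranspose ∈ SS k t := by
  rintro _ ⟨F, hF, rfl⟩
  rw [mem_SS]
  induction hF using Submodule.span_induction with
  | mem F hF =>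
    obtain ⟨σ, -, rfl⟩ := hF
    have h : (pt ℂ k t (mt ℂ univ σ)).conjTranspose = pt ℂ k t (mt ℂ univ σ⁻¹) := by
      ext j j'
      rw [Matrix.conjTranspose_apply, pt_apply, pt_apply, mt_flip, mt]
      rw [star_prod]
      refine Finset.prod_congr rfl fun i _ => ?_
      split_ifs <;> simp
    rw [h]
    exact Submodule.mem_map_of_mem (Submodule.subset_span ⟨σ⁻¹, Finset.image_univ_equiv _, rfl⟩)
  | zero => rw [map_zero, Matrix.conjTranspose_zero]; exact Submodule.zero_mem _
  | add F G _ _ hF hG =>
    rw [map_add, Matrix.conjTranspose_add]; exact Submodule.add_mem _ hF hG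
  | smul c F _ hF =>
    rw [map_smul, Matrix.conjTranspose_smul]; exact Submodule.smul_mem _ _ hF

/-- The contraction matrix. -/
def sw (K : Type*) [Field K] (k : ℕ) (s t : ι) : Matrix (ι → Fin k) (ι → Fin k) K :=
  pt K k t (mt K univ (swap s t))

theorem sw_apply {s t : ι} (hst : s ≠ t) (j j' : ι → Fin k) :
    sw K k s t j j' = if (j s = j t ∧ j' s = j' t ∧ ∀ i, i ≠ s → i ≠ t → j i = j' i)
      then 1 else 0 := by
  rw [sw, pt_apply, mt]
  split_ifs with h
  · obtain ⟨h1, h2, h3⟩ := h
    refine Finset.prod_eq_one fun i _ => ?_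
    rw [if_pos]
    by_cases his : i = s
    · subst his
      rw [update_of_ne hst, swap_apply_left, update_self, h1]
    · by_cases hit : i = t
      · subst hit
        rw [update_self, swap_apply_right, update_of_ne hst, h2]
      · rw [update_of_ne hit, swap_apply_of_ne_of_ne his hit, update_of_ne hit, h3 i his hit]
  · rw [Finset.prod_eq_zero_iff]
    by_contra hcon
    push Not at hcon
    apply h
    have h1 : ∀ i, update j t (j' t) i = update j' t (j t) (swap s t i) := by
      intro i
      have := hcon i (mem_univ i)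
      by_contra h2
      rw [if_neg h2] at this
      exact this rfl
    refine ⟨?_, ?_, fun i his hit => ?_⟩
    · have := h1 s
      rwa [update_of_ne hst, swap_apply_left, update_self] at this
    · have := h1 t
      rw [update_self, swap_apply_right, update_of_ne hst] at this
      exact this.symm
    · have := h1 i
      rwa [update_of_ne hit, swap_apply_of_ne_of_ne his hit, update_of_ne hit] at this

theorem mul_sw {s t : ι} (hst : s ≠ t) (M : Matrix (ι → Fin k) (ι → Fin k) K)
    (j j'' : ι → Fin k) :
    (M * sw K k s t) j j'' =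
      if j'' s = j'' t then ∑ c, M j (update (update j'' s c) t c) else 0 := by
  rw [Matrix.mul_apply]
  split_ifs with h
  · symm
    apply Finset.sum_of_injOn (fun c => update (update j'' s c) t c)
    · intro c _ c' _ hc
      have := congrFun hc t
      simpa using this
    · intro c _; exact mem_coe.2 (mem_univ _)
    · intro x _ hx
      rw [sw_apply hst, if_neg, mul_zero]
      rintro ⟨h1, -, h3⟩
      apply hx
      refine ⟨x t, by simp, ?_⟩
      change update (update j'' s (x t)) t (x t) = x
      funext i
      by_cases hit : i = t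
      · subst hit; simp
      · by_cases his : i = s
        · subst his; rw [update_of_ne hit, update_self, h1]
        · rw [update_of_ne hit, update_of_ne his, h3 i his hit]
    · intro c _
      rw [sw_apply hst, if_pos, mul_one]
      refine ⟨?_, h, fun i his hit => ?_⟩
      · rw [update_self, update_of_ne hst, update_self]
      · rw [update_of_ne hit, update_of_ne his]
  · refine Finset.sum_eq_zero fun x _ => ?_
    rw [sw_apply hst, if_neg (fun h' => h h'.2.1), mul_zero]

theorem sw_symm {s t : ι} (hst : s ≠ t) : (sw K k s t).transpose = sw K k s t := by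
  ext j j'
  rw [Matrix.transpose_apply, sw_apply hst, sw_apply hst]
  congr 1
  apply propext
  constructor
  · rintro ⟨h1, h2, h3⟩
    exact ⟨h2, h1, fun i his hit => (h3 i his hit).symm⟩
  · rintro ⟨h1, h2, h3⟩
    exact ⟨h2, h1, fun i his hit => (h3 i his hit).symm⟩

theorem sw_mul {s t : ι} (hst : s ≠ t) (M : Matrix (ι → Fin k) (ι → Fin k) K)
    (j j'' : ι → Fin k) :
    (sw K k s t * M) j j'' =
      if j s = j t then ∑ c, M (update (update j s c) t c) j'' else 0 := by
  have h1 : sw K k s t * M = (M.transpose * sw K k s t).transpose := by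
    rw [Matrix.transpose_mul, Matrix.transpose_transpose, sw_symm hst]
  rw [h1, Matrix.transpose_apply, mul_sw hst]
  rfl

theorem sw_sq {s t : ι} (hst : s ≠ t) : sw K k s t * sw K k s t = (k : K) • sw K k s t := by
  ext j j''
  rw [mul_sw hst, Matrix.smul_apply, sw_apply hst]
  split_ifs with h h' h'
  · have : ∀ c ∈ (univ : Finset (Fin k)), sw K k s t j (update (update j'' s c) t c) = 1 := by
      intro c _
      rw [sw_apply hst, if_pos]
      refine ⟨h'.1, ?_, fun i his hit => ?_⟩
      · rw [update_self, update_of_ne hst, update_self]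
      · rw [update_of_ne hit, update_of_ne his, h'.2.2 i his hit]
    rw [Finset.sum_congr rfl this]
    simp
  · rw [smul_zero]
    refine Finset.sum_eq_zero fun c _ => ?_
    rw [sw_apply hst, if_neg]
    rintro ⟨h1, -, h3⟩
    refine h' ⟨h1, h, fun i his hit => ?_⟩
    rw [h3 i his hit, update_of_ne hit, update_of_ne his]
  · exact absurd h'.2.1 h
  · rw [smul_zero]

theorem pt_mul_sw {s t : ι} (hst : s ≠ t) (F : (ι → Fin k) → (ι → Fin k) → K)
    (j j'' : ι → Fin k) :
    (pt K k t F * sw K k s t) j j'' =
      if j'' s = j'' t then ctr s t F (update j'' t (j t)) j else 0 := by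
  rw [mul_sw hst]
  split_ifs with h
  · rw [ctr]
    refine Finset.sum_congr rfl fun c _ => ?_
    rw [pt_apply]
    congr 1
    · rw [update_idem, update_comm hst]
    · rw [update_self]
  · rfl

theorem sw_pt_sw {s t : ι} (hst : s ≠ t) (F : (ι → Fin k) → (ι → Fin k) → K)
    (j j'' : ι → Fin k) :
    (sw K k s t * (pt K k t F * sw K k s t)) j j'' =
      if j s = j t ∧ j'' s = j'' t then ctr t s (ctr s t F) j'' j else 0 := by
  rw [sw_mul hst]
  by_cases h : j s = j t
  · by_cases h' : j'' s = j'' t
    · rw [if_pos h, if_pos ⟨h, h'⟩, ctr]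
      refine Finset.sum_congr rfl fun c _ => ?_
      rw [pt_mul_sw hst, if_pos h', update_self]
      rw [ctr, ctr]
      refine Finset.sum_congr rfl fun d _ => ?_
      rw [update_idem]
    · rw [if_pos h, if_neg (fun h2 => h' h2.2)]
      refine Finset.sum_eq_zero fun c _ => ?_
      rw [pt_mul_sw hst, if_neg h']
  · rw [if_neg h, if_neg (fun h2 => h h2.1)]

theorem pt_mul_sw_eq_zero [NeZero k] {s t : ι} (hst : s ≠ t)
    (F : (ι → Fin k) → (ι → Fin k) → K) :
    pt K k t F * sw K k s t = 0 ↔ ctr s t F = 0 := by
  constructor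
  · intro h
    funext a b
    have h1 := congrFun (congrFun h (update b t (a t))) (update (update a t 0) s 0)
    rw [pt_mul_sw hst, update_self, update_self, update_of_ne (fun h => hst h.symm), update_self,
      if_pos rfl] at h1
    change _ = 0 at h1
    change ctr s t F a b = 0
    rw [← h1, ctr, ctr]
    refine Finset.sum_congr rfl fun c _ => ?_
    congr 1
    · funext i
      by_cases his : i = s
      · subst his; rw [update_self, update_self]
      · rw [update_of_ne his, update_of_ne his]
        by_cases hit : i = t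
        · subst hit; rw [update_self]
        · rw [update_of_ne hit, update_of_ne his, update_of_ne hit]
    · rw [update_idem]
  · intro h
    ext j j''
    rw [pt_mul_sw hst, h]
    simp

theorem sw_pt_sw_eq_zero [NeZero k] {s t : ι} (hst : s ≠ t)
    (F : (ι → Fin k) → (ι → Fin k) → K) :
    sw K k s t * (pt K k t F * sw K k s t) = 0 ↔ ctr t s (ctr s t F) = 0 := by
  constructor
  · intro h
    funext a b
    have h1 := congrFun (congrFun h (update (update b t 0) s 0)) (update (update a t 0) s 0)
    rw [sw_pt_sw hst, update_self, update_of_ne (fun h => hst h.symm), update_self,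
      update_self, update_of_ne (fun h => hst h.symm), update_self, if_pos ⟨rfl, rfl⟩] at h1
    change _ = 0 at h1
    change ctr t s (ctr s t F) a b = 0
    rw [← h1]
    simp only [ctr]
    refine Finset.sum_congr rfl fun c _ => Finset.sum_congr rfl fun d _ => ?_
    congr 1
    · funext i
      by_cases his : i = s
      · subst his; rw [update_self, update_self]
      · rw [update_of_ne his, update_of_ne his]
        by_cases hit : i = t
        · subst hit; rw [update_self, update_self]
        · rw [update_of_ne hit, update_of_ne hit, update_of_ne his, update_of_ne hit]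
    · funext i
      by_cases hit : i = t
      · subst hit; rw [update_self, update_self]
      · rw [update_of_ne hit, update_of_ne hit]
        by_cases his : i = s
        · subst his; rw [update_self, update_self]
        · rw [update_of_ne his, update_of_ne his, update_of_ne his, update_of_ne hit]
  · intro h
    ext j j''
    rw [sw_pt_sw hst, h]
    simp

theorem finrank_range_of_ker {V W W' : Type*} [AddCommGroup V] [Module K V]
    [FiniteDimensional K V] [AddCommGroup W] [Module K W] [AddCommGroup W'] [Module K W']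
    (f : V →ₗ[K] W) (g : V →ₗ[K] W') (h : ∀ x, f x = 0 ↔ g x = 0) :
    finrank K (LinearMap.range f) = finrank K (LinearMap.range g) := by
  have h1 : LinearMap.ker f = LinearMap.ker g := by
    ext x; rw [LinearMap.mem_ker, LinearMap.mem_ker, h]
  have h2 := LinearMap.finrank_range_add_finrank_ker f
  have h3 := LinearMap.finrank_range_add_finrank_ker g
  rw [h1] at h2
  omega

theorem log_convex [NeZero k] (n : ℕ) : tn ℂ k (n + 1) ^ 2 ≤ tn ℂ k n * tn ℂ k (n + 2) := by
  classical
  let s : Fin (n + 2) := 0
  let t : Fin (n + 2) := 1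
  have hst : s ≠ t := by
    intro h
    have := congrArg Fin.val h
    simp [s, t] at this
  let A := SS (ι := Fin (n + 2)) k t
  have hk : (k : ℂ) ≠ 0 := Nat.cast_ne_zero.2 (NeZero.ne k)
  have hsw : sw ℂ k s t ∈ SS (ι := Fin (n + 2)) k t :=
    Submodule.mem_map_of_mem (Submodule.subset_span ⟨_, Finset.image_univ_equiv _, rfl⟩)
  let e : A := ⟨(k : ℂ)⁻¹ • sw ℂ k s t, (SS k t).smul_mem hsw _⟩
  have he : e * e = e := by
    apply Subtype.ext
    change ((k : ℂ)⁻¹ • sw ℂ k s t) * ((k : ℂ)⁻¹ • sw ℂ k s t) = (k : ℂ)⁻¹ • sw ℂ k s t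
    rw [smul_mul_smul_comm, sw_sq hst, smul_smul, mul_assoc, inv_mul_cancel₀ hk, mul_one]
  have hss : IsSemisimpleRing A := star_semisimple (SS k t) (SS_star t)
  have key := corner_ineq e he
  let T := TT ℂ k (univ : Finset (Fin (n + 2))) univ
  let Θ : T →ₗ[ℂ] A :=
    { toFun := fun F => ⟨pt ℂ k t F.1, Submodule.mem_map_of_mem F.2⟩
      map_add' := fun F G => Subtype.ext (map_add _ _ _)
      map_smul' := fun c F => Subtype.ext (map_smul _ _ _) }
  have hΘs : Surjective Θ := by
    rintro ⟨_, F, hF, rfl⟩
    exact ⟨⟨F, hF⟩, rfl⟩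
  have hΘi : Injective Θ := by
    intro F G h
    exact Subtype.ext (pt_injective t (congrArg Subtype.val h))
  have d3 : finrank ℂ A = tn ℂ k (n + 2) := by
    rw [← (LinearEquiv.ofBijective Θ ⟨hΘi, hΘs⟩).finrank_eq]
    rfl
  have d1 : finrank ℂ (LinearMap.range (LinearMap.mulRight ℂ e)) = tn ℂ k (n + 1) := by
    have h1 : LinearMap.range (LinearMap.mulRight ℂ e) =
        LinearMap.range ((LinearMap.mulRight ℂ e) ∘ₗ Θ) := by
      rw [LinearMap.range_comp, LinearMap.range_eq_top.2 hΘs, Submodule.map_top]
    rw [h1, finrank_range_of_ker _ ((ctrL ℂ k s t) ∘ₗ T.subtype)]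
    · rw [LinearMap.range_comp, Submodule.range_subtype, map_ctr (mem_univ _) (mem_univ _)]
      apply finrank_TT
      · rw [Finset.card_erase_of_mem (mem_univ _), Finset.card_univ, Fintype.card_fin]; rfl
      · rw [Finset.card_erase_of_mem (mem_univ _), Finset.card_univ, Fintype.card_fin]; rfl
    · rintro ⟨F, hF⟩
      change (Θ ⟨F, hF⟩ * e = 0) ↔ ctr s t F = 0
      rw [← pt_mul_sw_eq_zero hst]
      constructor
      · intro h
        have h2 : pt ℂ k t F * ((k : ℂ)⁻¹ • sw ℂ k s t) = 0 := congrArg Subtype.val h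
        rw [mul_smul_comm] at h2
        exact (smul_eq_zero.1 h2).resolve_left (inv_ne_zero hk)
      · intro h
        apply Subtype.ext
        change pt ℂ k t F * ((k : ℂ)⁻¹ • sw ℂ k s t) = 0
        rw [mul_smul_comm, h, smul_zero]
  have d2 : finrank ℂ (LinearMap.range ((LinearMap.mulLeft ℂ e) ∘ₗ (LinearMap.mulRight ℂ e))) =
      tn ℂ k n := by
    have h1 : LinearMap.range ((LinearMap.mulLeft ℂ e) ∘ₗ (LinearMap.mulRight ℂ e)) =
        LinearMap.range (((LinearMap.mulLeft ℂ e) ∘ₗ (LinearMap.mulRight ℂ e)) ∘ₗ Θ) := by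
      rw [LinearMap.range_comp Θ, LinearMap.range_eq_top.2 hΘs, Submodule.map_top]
    rw [h1, finrank_range_of_ker _ ((ctrL ℂ k t s) ∘ₗ (ctrL ℂ k s t) ∘ₗ T.subtype)]
    · rw [LinearMap.range_comp, LinearMap.range_comp, Submodule.range_subtype,
        map_ctr (mem_univ _) (mem_univ _),
        map_ctr (Finset.mem_erase.2 ⟨fun h => hst h.symm, mem_univ _⟩)
          (Finset.mem_erase.2 ⟨hst, mem_univ _⟩)]
      apply finrank_TT
      · rw [Finset.card_erase_of_mem (Finset.mem_erase.2 ⟨fun h => hst h.symm, mem_univ _⟩),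
          Finset.card_erase_of_mem (mem_univ _), Finset.card_univ, Fintype.card_fin]; rfl
      · rw [Finset.card_erase_of_mem (Finset.mem_erase.2 ⟨hst, mem_univ _⟩),
          Finset.card_erase_of_mem (mem_univ _), Finset.card_univ, Fintype.card_fin]; rfl
    · rintro ⟨F, hF⟩
      change (e * (Θ ⟨F, hF⟩ * e) = 0) ↔ ctr t s (ctr s t F) = 0
      rw [← sw_pt_sw_eq_zero hst]
      constructor
      · intro h
        have h2 : ((k : ℂ)⁻¹ • sw ℂ k s t) * (pt ℂ k t F * ((k : ℂ)⁻¹ • sw ℂ k s t)) = 0 :=
          congrArg Subtype.val h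
        rw [mul_smul_comm, smul_mul_smul_comm] at h2
        exact (smul_eq_zero.1 h2).resolve_left (mul_ne_zero (inv_ne_zero hk) (inv_ne_zero hk))
      · intro h
        apply Subtype.ext
        change ((k : ℂ)⁻¹ • sw ℂ k s t) * (pt ℂ k t F * ((k : ℂ)⁻¹ • sw ℂ k s t)) = 0
        rw [mul_smul_comm, smul_mul_smul_comm, h, smul_zero]
  rw [d1, d2, d3] at key
  exact key

end Pool.Agent.Y38.CC
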