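import Mathlib
import Pool.Agent.Y38.CC.Glue
import Pool.Agent.Y38.CC.Gram2
import Pool.Agent.Y38.CC.LogConvex2

/-!
# Convergence of the ratio of central to ordinary codimensions of matrices
-/

set_option autoImplicit false
set_option linter.unusedSectionVars false

namespace Pool.Agent.Y38.CC

open Finset Function Equiv Module Filter Topology

variable {k : ℕ}

theorem tn_upper (n : ℕ) : tn ℝ k n ≤ (k ^ 2) ^ n := by
  refine (Submodule.finrank_le _).trans (le_of_eq ?_)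
  rw [Module.finrank_pi_fintype]
  simp only [Module.finrank_fintype_fun_eq_card, Fintype.card_fun, Fintype.card_fin, sum_const,
    card_univ, smul_eq_mul]
  rw [← pow_mul, ← pow_add]
  congr 1
  ring

theorem tn_pos (hk : 1 ≤ k) (n : ℕ) : 0 < tn ℝ k n := by
  have h := tn_lower (k := k) (n := n)
  have h1 : 0 < (k ^ 2) ^ n := Nat.pow_pos (Nat.pow_pos (by omega))
  rcases Nat.eq_zero_or_pos (tn ℝ k n) with h0 | h0
  · rw [h0, zero_mul] at h; omega
  · exact h0

theorem log_convex_real (hk : 1 ≤ k) (n : ℕ) :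
    tn ℝ k (n + 1) ^ 2 ≤ tn ℝ k n * tn ℝ k (n + 2) := by
  have : NeZero k := ⟨by omega⟩
  rw [tn_field ℝ ℂ k (n + 1), tn_field ℝ ℂ k n, tn_field ℝ ℂ k (n + 2)]
  exact log_convex n

/-- A positive log-convex sequence bounded by a geometric sequence has converging quotients. -/
theorem ratio_tendsto (t : ℕ → ℝ) (D : ℝ) (hD : 0 < D) (hpos : ∀ n, 0 < t n)
    (hlc : ∀ n, t (n + 1) ^ 2 ≤ t n * t (n + 2)) (hub : ∀ n, t n ≤ D ^ n) :
    ∃ L : ℝ, 0 < L ∧ Tendsto (fun n => t (n + 1) / t n) atTop (𝓝 L) := by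
  have hmono : Monotone fun n => t (n + 1) / t n := by
    refine monotone_nat_of_le_succ fun n => ?_
    rw [div_le_div_iff₀ (hpos n) (hpos (n + 1))]
    have := hlc n
    nlinarith
  have hge : ∀ N j, t N * (t (N + 1) / t N) ^ j ≤ t (N + j) := by
    intro N j
    induction j with
    | zero => simp
    | succ j ih =>
      have h1 : t (N + 1) / t N ≤ t (N + j + 1) / t (N + j) := hmono (Nat.le_add_right N j)
      have h2 : 0 ≤ t (N + 1) / t N := (div_pos (hpos _) (hpos _)).le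
      calc t N * (t (N + 1) / t N) ^ (j + 1) = (t N * (t (N + 1) / t N) ^ j) * (t (N + 1) / t N) := by
            ring
        _ ≤ t (N + j) * (t (N + 1) / t N) := mul_le_mul_of_nonneg_right ih h2
        _ ≤ t (N + j) * (t (N + j + 1) / t (N + j)) :=
            mul_le_mul_of_nonneg_left h1 (hpos _).le
        _ = t (N + (j + 1)) := by
            rw [mul_div_cancel₀ _ (hpos _).ne']; rfl
  have hbd : ∀ N, t (N + 1) / t N ≤ D := by
    intro N
    by_contra hcon
    push Not at hcon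
    set r := t (N + 1) / t N with hr
    have h1 : ∀ j : ℕ, (r / D) ^ j ≤ D ^ N / t N := by
      intro j
      rw [div_pow, div_le_div_iff₀ (pow_pos hD j) (hpos N)]
      calc r ^ j * t N = t N * r ^ j := by ring
        _ ≤ t (N + j) := hge N j
        _ ≤ D ^ (N + j) := hub _
        _ = D ^ N * D ^ j := pow_add _ _ _
    have h2 : 1 < r / D := by rwa [one_lt_div hD]
    obtain ⟨j, hj⟩ := ((tendsto_pow_atTop_atTop_of_one_lt h2).eventually_gt_atTop
      (D ^ N / t N)).exists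
    exact absurd (h1 j) (not_le.2 hj)
  have hbdd : BddAbove (Set.range fun n => t (n + 1) / t n) := ⟨D, by rintro _ ⟨n, rfl⟩; exact hbd n⟩
  refine ⟨⨆ n, t (n + 1) / t n, ?_, tendsto_atTop_ciSup hmono hbdd⟩
  exact lt_of_lt_of_le (div_pos (hpos 1) (hpos 0)) (le_ciSup hbdd 0)

theorem poly_geom (P : ℕ) {q : ℝ} (h0 : 0 < q) (h1 : q < 1) :
    Tendsto (fun n : ℕ => ((n : ℝ) + 1) ^ P * q ^ n) atTop (𝓝 0) := by
  have h := tendsto_pow_const_mul_const_pow_of_abs_lt_one P (r := q) (by rwa [abs_of_pos h0])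
  have h2 := (h.comp (tendsto_add_atTop_nat 1)).mul_const q⁻¹
  rw [zero_mul] at h2
  refine h2.congr fun n => ?_
  simp only [comp_apply, Nat.cast_add, Nat.cast_one]
  rw [pow_succ]
  field_simp

theorem main_limit (hk : 2 ≤ k) : ∃ L : ℝ, 0 < L ∧
    (∀ᶠ n in atTop, (cn k n : ℝ) ≠ 0) ∧
    Tendsto (fun n : ℕ => (dn k n : ℝ) / (cn k n : ℝ)) atTop (𝓝 L⁻¹) := by
  have hNZ : NeZero k := ⟨by omega⟩
  have hk1 : 1 ≤ k := by omega
  obtain ⟨M, hM⟩ := lower_bounds hk
  set D : ℝ := (k : ℝ) ^ 2 with hD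
  have hkr : (2 : ℝ) ≤ k := by exact_mod_cast hk
  have hD4 : 4 ≤ D := by rw [hD]; nlinarith
  have hDpos : 0 < D := by linarith
  have hcast : (((k ^ 2 - 1 : ℕ)) : ℝ) = D - 1 := by
    rw [Nat.cast_sub (Nat.one_le_pow _ _ (by omega))]
    simp [hD]
  have hpos : ∀ n, (0 : ℝ) < tn ℝ k n := fun n => by exact_mod_cast tn_pos hk1 n
  obtain ⟨L, hL, hlim⟩ := ratio_tendsto (fun n => (tn ℝ k n : ℝ)) D hDpos hpos
    (fun n => by exact_mod_cast log_convex_real hk1 n)
    (fun n => by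
      have h := tn_upper (k := k) n
      have h2 : ((tn ℝ k n : ℕ) : ℝ) ≤ (((k ^ 2) ^ n : ℕ) : ℝ) := by exact_mod_cast h
      simpa [hD] using h2)
  have hlow : ∀ n, D ^ n ≤ (tn ℝ k n : ℝ) * ((n : ℝ) + 1) ^ (k ^ 2) := by
    intro n
    have h := tn_lower (k := k) (n := n)
    have h2 : (((k ^ 2) ^ n : ℕ) : ℝ) ≤ ((tn ℝ k n * (n + 1) ^ (k ^ 2) : ℕ) : ℝ) := by
      exact_mod_cast h
    simpa [hD] using h2
  set q : ℝ := (D - 1) / D with hq
  have hq0 : 0 < q := div_pos (by linarith) hDpos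
  have hq1 : q < 1 := by rw [hq, div_lt_one hDpos]; linarith
  -- the error term of the central functions
  have herr : ∀ n : ℕ, (((n + 1) ^ M * (k ^ 2 - 1) ^ n : ℕ) : ℝ) / (tn ℝ k n : ℝ) ≤
      ((n : ℝ) + 1) ^ (M + k ^ 2) * q ^ n := by
    intro n
    rw [div_le_iff₀ (hpos n)]
    push_cast [hcast]
    rw [hq, div_pow, pow_add]
    have h1 := hlow n
    have h2 : (0 : ℝ) ≤ ((n : ℝ) + 1) ^ M * ((D - 1) ^ n / D ^ n) :=
      mul_nonneg (by positivity) (div_nonneg (pow_nonneg (by linarith) _) (pow_nonneg hDpos.le _))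
    calc ((n : ℝ) + 1) ^ M * (D - 1) ^ n = (((n : ℝ) + 1) ^ M * ((D - 1) ^ n / D ^ n)) * D ^ n := by
          field_simp
      _ ≤ (((n : ℝ) + 1) ^ M * ((D - 1) ^ n / D ^ n)) *
          ((tn ℝ k n : ℝ) * ((n : ℝ) + 1) ^ (k ^ 2)) := mul_le_mul_of_nonneg_left h1 h2
      _ = _ := by ring
  have hsmall := poly_geom (M + k ^ 2) hq0 hq1
  -- d/t tends to 1
  have hd : Tendsto (fun n : ℕ => (dn k n : ℝ) / (tn ℝ k n : ℝ)) atTop (𝓝 1) := by
    have h1 : ∀ n : ℕ, 1 - ((n : ℝ) + 1) ^ (M + k ^ 2) * q ^ n ≤ (dn k n : ℝ) / (tn ℝ k n : ℝ) := by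
      intro n
      have h2 : (tn ℝ k n : ℝ) ≤ (dn k n : ℝ) + (((n + 1) ^ M * (k ^ 2 - 1) ^ n : ℕ) : ℝ) := by
        exact_mod_cast (hM n).2
      have h3 : (1 : ℝ) ≤ (dn k n : ℝ) / (tn ℝ k n : ℝ) +
          (((n + 1) ^ M * (k ^ 2 - 1) ^ n : ℕ) : ℝ) / (tn ℝ k n : ℝ) := by
        rw [← add_div, one_le_div (hpos n)]
        exact h2
      linarith [herr n]
    have h2 : ∀ n : ℕ, (dn k n : ℝ) / (tn ℝ k n : ℝ) ≤ 1 := by
      intro n
      rw [div_le_one (hpos n)]
      exact_mod_cast dn_le (k := k) (n := n)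
    refine tendsto_of_tendsto_of_tendsto_of_le_of_le ?_ tendsto_const_nhds h1 h2
    simpa using hsmall.const_sub 1
  -- c/t tends to 1
  have hc : Tendsto (fun n : ℕ => (cn k n : ℝ) / (tn ℝ k (n + 1) : ℝ)) atTop (𝓝 1) := by
    have h1 : ∀ n : ℕ, 1 - (((n : ℝ) + 1) ^ (M + k ^ 2) * q ^ n) *
        ((tn ℝ k (n + 1) : ℝ) / (tn ℝ k n : ℝ))⁻¹ * D ≤
        (cn k n : ℝ) / (tn ℝ k (n + 1) : ℝ) := by
      intro n
      have h2 : (tn ℝ k (n + 1) : ℝ) ≤
          (cn k n : ℝ) + (((n + 1) ^ M * (k ^ 2 - 1) ^ n : ℕ) : ℝ) * D := by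
        have h3 : ((tn ℝ k (n + 1) : ℕ) : ℝ) ≤
            ((cn k n + ((n + 1) ^ M * (k ^ 2 - 1) ^ n) * k ^ 2 : ℕ) : ℝ) := by
          exact_mod_cast (hM n).1
        rw [Nat.cast_add, Nat.cast_mul _ (k ^ 2)] at h3
        rw [hD]
        simpa using h3
      have h3 : (1 : ℝ) ≤ (cn k n : ℝ) / (tn ℝ k (n + 1) : ℝ) +
          ((((n + 1) ^ M * (k ^ 2 - 1) ^ n : ℕ) : ℝ) * D) / (tn ℝ k (n + 1) : ℝ) := by
        rw [← add_div, one_le_div (hpos (n + 1))]
        exact h2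
      have h4 : ((((n + 1) ^ M * (k ^ 2 - 1) ^ n : ℕ) : ℝ) * D) / (tn ℝ k (n + 1) : ℝ) =
          ((((n + 1) ^ M * (k ^ 2 - 1) ^ n : ℕ) : ℝ) / (tn ℝ k n : ℝ)) *
            ((tn ℝ k (n + 1) : ℝ) / (tn ℝ k n : ℝ))⁻¹ * D := by
        have := (hpos n).ne'
        have := (hpos (n + 1)).ne'
        field_simp
      have h5 : ((((n + 1) ^ M * (k ^ 2 - 1) ^ n : ℕ) : ℝ) / (tn ℝ k n : ℝ)) *
            ((tn ℝ k (n + 1) : ℝ) / (tn ℝ k n : ℝ))⁻¹ * D ≤
          (((n : ℝ) + 1) ^ (M + k ^ 2) * q ^ n) *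
            ((tn ℝ k (n + 1) : ℝ) / (tn ℝ k n : ℝ))⁻¹ * D := by
        refine mul_le_mul_of_nonneg_right (mul_le_mul_of_nonneg_right (herr n) ?_) hDpos.le
        exact inv_nonneg.2 (div_pos (hpos _) (hpos _)).le
      linarith
    have h2 : ∀ n : ℕ, (cn k n : ℝ) / (tn ℝ k (n + 1) : ℝ) ≤ 1 := by
      intro n
      rw [div_le_one (hpos _)]
      exact_mod_cast cn_le (k := k) (n := n)
    refine tendsto_of_tendsto_of_tendsto_of_le_of_le ?_ tendsto_const_nhds h1 h2
    have h3 := ((hsmall.mul (hlim.inv₀ hL.ne')).mul_const D).const_sub 1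
    simpa using h3
  have hcne : ∀ᶠ n in atTop, (cn k n : ℝ) ≠ 0 := by
    have h1 : ∀ᶠ n in atTop, (1 / 2 : ℝ) < (cn k n : ℝ) / (tn ℝ k (n + 1) : ℝ) :=
      hc.eventually (lt_mem_nhds (by norm_num))
    filter_upwards [h1] with n hn h0
    rw [h0, zero_div] at hn
    norm_num at hn
  refine ⟨L, hL, hcne, ?_⟩
  have h1 := (hd.mul (hlim.inv₀ hL.ne')).mul (hc.inv₀ one_ne_zero)
  rw [one_mul, inv_one, mul_one] at h1
  refine h1.congr fun n => ?_
  have e1 := (hpos n).ne'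
  have e2 := (hpos (n + 1)).ne'
  by_cases h0 : (cn k n : ℝ) = 0
  · rw [h0]; simp
  · field_simp

theorem main_result (F : Type) [Field F] [CharZero F] (k : ℕ) (hk : 1 ≤ k) :
    ∃ α : ℝ, 0 ≤ α ∧ α ≤ 1 ∧
        Filter.Tendsto (fun n : ℕ =>
          (Module.finrank F (Submodule.span F (Set.range (fun σ : Equiv.Perm (Fin n) =>
              fun x : Fin n → Matrix (Fin k) (Fin k) F =>
                Submodule.mkQ (Subalgebra.toSubmodule (Subalgebra.center F (Matrix (Fin k) (Fin k) F)))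
                  (List.ofFn (fun i => x (σ i))).prod))) : ℝ) /
          (Module.finrank F (Submodule.span F (Set.range (fun σ : Equiv.Perm (Fin n) =>
              fun x : Fin n → Matrix (Fin k) (Fin k) F =>
                (List.ofFn (fun i => x (σ i))).prod))) : ℝ))
          Filter.atTop (nhds α) := by
  have i₀ : Fin k := ⟨0, by omega⟩
  have hc : ∀ n, Module.finrank F (Submodule.span F (Set.range (fun σ : Equiv.Perm (Fin n) =>
              fun x : Fin n → Matrix (Fin k) (Fin k) F =>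
                (List.ofFn (fun i => x (σ i))).prod))) = cn k n := by
    intro n
    rw [cod_eq, cn, Wn]
    exact rank_indep F ℝ (uw k n)
  have hz : ∀ n, Module.finrank F (Submodule.span F (Set.range (fun σ : Equiv.Perm (Fin n) =>
              fun x : Fin n → Matrix (Fin k) (Fin k) F =>
                Submodule.mkQ (Subalgebra.toSubmodule (Subalgebra.center F (Matrix (Fin k) (Fin k) F)))
                  (List.ofFn (fun i => x (σ i))).prod))) =
      finrank ℝ (Submodule.span ℝ (Set.range (cst ℝ (zw k n i₀)))) := by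
    intro n
    rw [ccod_eq F k n i₀]
    exact rank_indep F ℝ (zw k n i₀)
  rcases Nat.lt_or_ge k 2 with h1 | h1
  · -- the case k = 1
    have hk1 : k = 1 := by omega
    subst hk1
    refine ⟨0, le_refl _, zero_le_one, ?_⟩
    have hz0 : ∀ n, finrank ℝ (Submodule.span ℝ (Set.range (cst ℝ (zw 1 n i₀)))) = 0 := by
      intro n
      have : Submodule.span ℝ (Set.range (cst ℝ (zw 1 n i₀))) = ⊥ := by
        rw [Submodule.span_eq_bot]
        rintro _ ⟨σ, rfl⟩
        funext j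
        change ((zw 1 n i₀ σ j : ℤ) : ℝ) = 0
        have hj : j = (j.1, j.2.1, i₀, i₀) := by
          refine Prod.ext rfl (Prod.ext rfl (Prod.ext ?_ ?_))
          · exact Subsingleton.elim _ _
          · exact Subsingleton.elim _ _
        rw [zw, if_pos (Subsingleton.elim _ _), ← hj, sub_self, Int.cast_zero]
      rw [this, finrank_bot]
    simp only [hz, hz0, Nat.cast_zero, zero_div]
    exact tendsto_const_nhds
  · obtain ⟨L, hL, hcne, hlim⟩ := main_limit h1
    have hadd : ∀ n, (finrank ℝ (Submodule.span ℝ (Set.range (cst ℝ (zw k n i₀)))) : ℝ) +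
        (dn k n : ℝ) = (cn k n : ℝ) := by
      intro n
      exact_mod_cast zn_add (k := k) (n := n) i₀
    have hten : Tendsto (fun n : ℕ =>
        (finrank ℝ (Submodule.span ℝ (Set.range (cst ℝ (zw k n i₀)))) : ℝ) / (cn k n : ℝ))
        atTop (𝓝 (1 - L⁻¹)) := by
      refine (hlim.const_sub 1).congr' ?_
      filter_upwards [hcne] with n hn
      rw [eq_div_iff hn, sub_mul, div_mul_cancel₀ _ hn, one_mul]
      linarith [hadd n]
    refine ⟨1 - L⁻¹, ?_, ?_, ?_⟩
    · refine ge_of_tendsto' hten fun n => ?_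
      positivity
    · have : 0 < L⁻¹ := inv_pos.2 hL
      linarith
    · simp only [hz, hc]
      exact hten

end Pool.Agent.Y38.CC
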